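import Mathlib

/-!
# Single-vehicle scheduling on a line: the jobs of the reduction
-/

set_option autoImplicit false

namespace Pool.Agent.Y605.VS

inductive Job : Type
  | G (k : ℕ) : Job
  | F (k : ℕ) : Job
  | I (k : ℕ) : Job
  | Z : Job
  deriving DecidableEq

open Job

/-- heavy jobs -/
def heavy : Job → Prop
  | G _ => True
  | F _ => True
  | I _ => False
  | Z => False

/-- level -/
def lv : Job → ℕ
  | G k => 2 * k + 1
  | F k => 2 * k + 2
  | I k => 2 * k + 2
  | Z => 0

theorem lv_G (k : ℕ) : lv (G k) = 2 * k + 1 := rfl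
theorem lv_F (k : ℕ) : lv (F k) = 2 * k + 2 := rfl
theorem lv_I (k : ℕ) : lv (I k) = 2 * k + 2 := rfl
theorem lv_Z : lv Z = 0 := rfl

/-- the data of the reduction: sizes, number of items, target -/
structure Dat : Type where
  a : ℕ → ℕ
  n : ℕ
  t : ℕ

namespace Dat

variable (d : Dat)

def S : ℕ := ∑ i ∈ Finset.range d.n, d.a i

def W : ℕ := d.S + 1

def V : ℕ := 2 * ((d.n + 1) * d.W) + d.n * (d.n + 1) * d.W + 3 * d.S + 2

/-- position -/
def x : Job → ℕ
  | G _ => 0
  | F k => (k + 1) * d.W
  | I k => (k + 1) * d.W + d.a k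
  | Z => (d.n + 1) * d.W

/-- handling time -/
def h : Job → ℕ
  | G k => d.V * 2 ^ (2 * k + 1)
  | F k => d.V * 2 ^ (2 * k + 2)
  | I k => d.a k
  | Z => 1

/-- deadline (when time is reversed) -/
def D : Job → ℕ
  | G 0 => 2 * ((d.n + 1) * d.W) + 1 + d.t + 2 * d.V
  | j => d.V * (2 ^ (lv j + 1) - 1)

/-- all jobs, from the left to the right -/
def jobs : List Job :=
  (List.range (d.n + 1)).map G ++ (List.range d.n).flatMap (fun k => [F k, I k]) ++ [Z]

/-- sum of the handling times -/
def hs (l : List Job) : ℕ := (l.map d.h).sum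

def K : ℕ := 2 * ((d.n + 1) * d.W) + d.n * (d.n + 1) * d.W + 2 * (d.S - d.t) + d.hs d.jobs

/-- position of the first job of a list -/
def ps : List Job → ℕ
  | [] => 0
  | j :: _ => d.x j

/-- length of the walk through a list, up to `0` -/
def wk : List Job → ℕ
  | [] => 0
  | j :: l => ((d.x j : ℤ) - ps d l).natAbs + wk l

/-- release times are respected (time is reversed) -/
def good : List Job → Prop
  | [] => True
  | j :: l => (d.K - d.D j) + d.wk (j :: l) + d.hs (j :: l) ≤ d.K ∧ good l

/-- length of the closed walk -/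
def cw (l : List Job) : ℕ := d.wk l + d.ps l

@[simp] theorem hs_nil : d.hs [] = 0 := rfl
@[simp] theorem hs_cons (j : Job) (l : List Job) : d.hs (j :: l) = d.h j + d.hs l := by
  simp [hs]
@[simp] theorem hs_append (l l' : List Job) : d.hs (l ++ l') = d.hs l + d.hs l' := by
  simp [hs]

theorem hs_perm {l l' : List Job} (h : l.Perm l') : d.hs l = d.hs l' :=
  (h.map d.h).sum_eq

theorem h_le_hs {q : Job} {l : List Job} (hq : q ∈ l) : d.h q ≤ d.hs l :=
  List.single_le_sum (by simp) _ (List.mem_map_of_mem hq)

theorem V_pos : 0 < d.V := by unfold V; omega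

theorem D_le (ht : d.t ≤ d.S) (j : Job) : d.D j ≤ d.V * (2 ^ (lv j + 1) - 1) := by
  have key : 2 * ((d.n + 1) * d.W) + 1 + d.t + 2 * d.V ≤ d.V * (2 ^ (lv (G 0) + 1) - 1) := by
    have : (2 ^ (lv (G 0) + 1) - 1 : ℕ) = 3 := by simp [lv]
    rw [this]
    have h1 : d.V = 2 * ((d.n + 1) * d.W) + d.n * (d.n + 1) * d.W + 3 * d.S + 2 := rfl
    omega
  rcases j with k | k | k | _
  · cases k with
    | zero => exact key
    | succ k => exact le_refl _
  · exact le_refl _
  · exact le_refl _
  · exact le_refl _

theorem h_heavy {j : Job} (hj : heavy j) : d.h j = d.V * 2 ^ lv j := by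
  rcases j with k | k | k | _
  · rfl
  · rfl
  · exact hj.elim
  · exact hj.elim

/-! ### Walks -/

theorem ps_nil : d.ps [] = 0 := rfl
theorem ps_cons (j : Job) (l : List Job) : d.ps (j :: l) = d.x j := rfl
theorem wk_nil : d.wk [] = 0 := rfl
theorem wk_cons (j : Job) (l : List Job) :
    d.wk (j :: l) = ((d.x j : ℤ) - d.ps l).natAbs + d.wk l := rfl

theorem ps_append {l m : List Job} (hm : d.ps m = 0) : d.ps (l ++ m) = d.ps l := by
  cases l with
  | nil => simpa [ps] using hm
  | cons j l => rfl

theorem wk_append {m : List Job} (hm : d.ps m = 0) (l : List Job) :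
    d.wk (l ++ m) = d.wk l + d.wk m := by
  induction l with
  | nil => simp [wk]
  | cons j l ih =>
    rw [List.cons_append, wk, wk, ih, d.ps_append hm]
    omega

theorem ps_le_wk (l : List Job) : d.ps l ≤ d.wk l := by
  induction l with
  | nil => simp [ps_nil]
  | cons j l ih =>
    simp only [ps_cons, wk_cons]
    omega

theorem le_cw {q : Job} {l : List Job} (hq : q ∈ l) : 2 * d.x q ≤ d.cw l := by
  unfold cw
  induction l with
  | nil => simp at hq
  | cons j l ih =>
    have h1 := d.ps_le_wk l
    simp only [ps_cons, wk_cons]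
    rcases List.mem_cons.1 hq with rfl | hq
    · omega
    · have := ih hq
      omega

theorem cw_split {g : Job} (hg : d.x g = 0) (l m : List Job) :
    d.cw (l ++ g :: m) = d.cw l + d.cw m := by
  have h1 : d.ps (g :: m) = 0 := hg
  unfold cw
  rw [d.wk_append h1, d.ps_append h1]
  simp only [wk_cons, hg]
  omega

/-! ### Order -/

/-- the order forced by the deadlines -/
def Ord (l : List Job) : Prop := l.Pairwise (fun j q => heavy q → lv q ≤ lv j)

theorem ord_of_good (ht : d.t ≤ d.S) (l : List Job) (hl : d.good l) : Ord l := by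
  induction l with
  | nil => exact List.Pairwise.nil
  | cons j l ih =>
    obtain ⟨h1, h2⟩ := hl
    refine List.Pairwise.cons ?_ (ih h2)
    intro q hq hh
    by_contra hlt
    rw [not_le] at hlt
    have h3 := d.h_heavy hh
    have h4 : d.V * 2 ^ (lv j + 1) ≤ d.h q := by
      rw [h3]
      exact Nat.mul_le_mul_left _ (Nat.pow_le_pow_right (by norm_num) hlt)
    have h5 := d.h_le_hs hq
    have h6 := d.D_le ht j
    have h7 : d.V * (2 ^ (lv j + 1) - 1) < d.V * 2 ^ (lv j + 1) :=
      Nat.mul_lt_mul_of_pos_left (Nat.sub_lt (by positivity) (by norm_num)) d.V_pos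
    rw [hs_cons] at h1
    have h8 : d.hs l ≤ d.D j := by omega
    omega

/-- total size of the items in a list -/
def it (l : List Job) : ℕ := ∑ i ∈ (Finset.range d.n).filter (fun i => I i ∈ l), d.a i

theorem it_le_add {l l1 l2 : List Job} (h : ∀ i, I i ∈ l → I i ∈ l1 ∨ I i ∈ l2) :
    d.it l ≤ d.it l1 + d.it l2 := by
  unfold it
  calc ∑ i ∈ (Finset.range d.n).filter (fun i => I i ∈ l), d.a i
      ≤ ∑ i ∈ (Finset.range d.n).filter (fun i => I i ∈ l1) ∪
          (Finset.range d.n).filter (fun i => I i ∈ l2), d.a i := by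
        refine Finset.sum_le_sum_of_subset ?_
        intro i hi
        rw [Finset.mem_filter] at hi
        rw [Finset.mem_union, Finset.mem_filter, Finset.mem_filter]
        rcases h i hi.2 with h1 | h1
        · exact Or.inl ⟨hi.1, h1⟩
        · exact Or.inr ⟨hi.1, h1⟩
    _ ≤ _ := by
        have := Finset.sum_union_inter (s₁ := (Finset.range d.n).filter (fun i => I i ∈ l1))
          (s₂ := (Finset.range d.n).filter (fun i => I i ∈ l2)) (f := d.a)
        omega

theorem lower (e : ℕ) : ∀ (k : ℕ), k + e = d.n → ∀ L : List Job, Ord L →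
    (∀ j, k ≤ j → j < d.n → F j ∈ L ∧ G (j + 1) ∈ L) → (∀ i, I i ∈ L → k ≤ i) →
    ∑ j ∈ Finset.Ico k d.n, 2 * ((j + 1) * d.W) + min (2 * d.W) (2 * d.it L) ≤ d.cw L := by
  induction e with
  | zero =>
    intro k hk L _ _ hI
    have h0 : d.it L = 0 := by
      unfold it
      rw [Finset.sum_eq_zero]
      intro i hi
      rw [Finset.mem_filter, Finset.mem_range] at hi
      have := hI i hi.2
      omega
    rw [h0, Finset.Ico_eq_empty (by omega)]
    simp
  | succ e ih =>
    intro k hk L hO hF hI
    obtain ⟨hFk, hGk⟩ := hF k (le_refl _) (by omega)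
    obtain ⟨L1, L2, rfl⟩ := List.append_of_mem hGk
    unfold Ord at hO
    rw [List.pairwise_append] at hO
    obtain ⟨hO1, hO2, hO12⟩ := hO
    rw [List.pairwise_cons] at hO2
    obtain ⟨hO3, hO2⟩ := hO2
    have hin : ∀ q, heavy q → 2 * k + 3 < lv q → q ∈ L1 ++ G (k + 1) :: L2 → q ∈ L1 := by
      intro q hq hlt hmem
      rcases List.mem_append.1 hmem with h1 | h1
      · exact h1
      rcases List.mem_cons.1 h1 with h1 | h1
      · subst h1
        simp only [lv_G, lv_F, lv_I, lv_Z] at hlt
        omega
      · have := hO3 q h1 hq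
        simp only [lv_G, lv_F, lv_I, lv_Z] at this
        omega
    have hout : ∀ q, lv q < 2 * k + 3 → q ∉ L1 := by
      intro q hlt hmem
      have := hO12 q hmem (G (k + 1)) (List.mem_cons_self ..) trivial
      simp only [lv_G, lv_F, lv_I, lv_Z] at this
      omega
    have hF2 : F k ∈ L2 := by
      rcases List.mem_append.1 hFk with h1 | h1
      · exact absurd h1 (hout (F k) (by simp only [lv_G, lv_F, lv_I, lv_Z]; omega))
      rcases List.mem_cons.1 h1 with h1 | h1
      · exact absurd h1 (by simp)
      · exact h1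
    have hrec := ih (k + 1) (by omega) L1 hO1 (fun j hj hj' => by
        obtain ⟨h1, h2⟩ := hF j (by omega) hj'
        exact ⟨hin _ trivial (by simp only [lv_G, lv_F, lv_I, lv_Z]; omega) h1,
          hin _ trivial (by simp only [lv_G, lv_F, lv_I, lv_Z]; omega) h2⟩)
      (fun i hi => by
        have h1 := hI i (List.mem_append_left _ hi)
        by_contra hlt
        exact hout (I i) (by simp only [lv_G, lv_F, lv_I, lv_Z]; omega) hi)
    rw [d.cw_split (g := G (k + 1)) rfl, Finset.sum_eq_sum_Ico_succ_bot (by omega : k < d.n)]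
    have hle : d.it (L1 ++ G (k + 1) :: L2) ≤ d.it L1 + d.it L2 := by
      apply d.it_le_add
      intro i hi
      rcases List.mem_append.1 hi with h1 | h1
      · exact Or.inl h1
      rcases List.mem_cons.1 h1 with h1 | h1
      · exact absurd h1 (by simp)
      · exact Or.inr h1
    by_cases hbig : ∃ i, k < i ∧ I i ∈ L2
    · obtain ⟨i, hki, hi⟩ := hbig
      have h1 := d.le_cw hi
      simp only [x] at h1
      have h2 : (k + 1 + 1) * d.W ≤ (i + 1) * d.W := Nat.mul_le_mul_right _ (by omega)
      have h3 : (k + 1 + 1) * d.W = (k + 1) * d.W + d.W := by ring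
      have h4 : min (2 * d.W) (2 * d.it (L1 ++ G (k + 1) :: L2)) ≤ 2 * d.W := min_le_left _ _
      omega
    · have h0 : ∀ i, I i ∈ L2 → i = k := by
        intro i hi
        have h1 : k ≤ i := hI i (List.mem_append_right _ (List.mem_cons_of_mem _ hi))
        by_contra hne
        exact hbig ⟨i, by omega, hi⟩
      have h1 : 2 * ((k + 1) * d.W) + 2 * d.it L2 ≤ d.cw L2 := by
        by_cases hk2 : I k ∈ L2
        · have h2 := d.le_cw hk2
          simp only [x] at h2
          have h3 : d.it L2 ≤ d.a k := by
            unfold it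
            have : (Finset.range d.n).filter (fun i => I i ∈ L2) ⊆ {k} := by
              intro i hi
              rw [Finset.mem_filter] at hi
              rw [Finset.mem_singleton]
              exact h0 i hi.2
            refine (Finset.sum_le_sum_of_subset this).trans ?_
            simp
          omega
        · have h2 := d.le_cw hF2
          simp only [x] at h2
          have h3 : d.it L2 = 0 := by
            unfold it
            rw [Finset.sum_eq_zero]
            intro i hi
            rw [Finset.mem_filter] at hi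
            have := h0 i hi.2
            subst this
            exact absurd hi.2 hk2
          omega
      have h4 : min (2 * d.W) (2 * d.it (L1 ++ G (k + 1) :: L2)) ≤
          min (2 * d.W) (2 * d.it L1) + 2 * d.it L2 := by
        omega
      omega

theorem sum_Ico_two (W : ℕ) (n : ℕ) :
    ∑ j ∈ Finset.Ico 0 n, 2 * ((j + 1) * W) = n * (n + 1) * W := by
  induction n with
  | zero => simp
  | succ n ih =>
    rw [Finset.sum_Ico_succ_top (Nat.zero_le _), ih]
    ring

theorem sound (ht : d.t ≤ d.S) (π : List Job) (hπ : π.Perm d.jobs) (hg : d.good π)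
    (hc : d.cw π + d.hs π ≤ d.K) :
    ∃ s ⊆ Finset.range d.n, ∑ i ∈ s, d.a i = d.t := by
  have hO := d.ord_of_good ht π hg
  have hmem : ∀ q, q ∈ π ↔ q ∈ d.jobs := fun q => hπ.mem_iff
  have hG0 : G 0 ∈ π := by
    rw [hmem]; simp [jobs]
  have hZ : Z ∈ π := by
    rw [hmem]; simp [jobs]
  have hFj : ∀ j, 0 ≤ j → j < d.n → F j ∈ π ∧ G (j + 1) ∈ π := by
    intro j _ hj
    rw [hmem, hmem]
    simp [jobs, hj]
  have hIj : ∀ i, I i ∈ π ↔ i < d.n := by
    intro i
    rw [hmem]
    simp [jobs]
  obtain ⟨L, P, rfl⟩ := List.append_of_mem hG0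
  unfold Ord at hO
  rw [List.pairwise_append] at hO
  obtain ⟨hO1, hO2, hO12⟩ := hO
  rw [List.pairwise_cons] at hO2
  obtain ⟨hO3, hO2⟩ := hO2
  have hin : ∀ q, heavy q → 1 < lv q → q ∈ L ++ G 0 :: P → q ∈ L := by
    intro q hq hlt hm
    rcases List.mem_append.1 hm with h1 | h1
    · exact h1
    rcases List.mem_cons.1 h1 with h1 | h1
    · subst h1
      simp only [lv_G, lv_F, lv_I, lv_Z] at hlt
      omega
    · have := hO3 q h1 hq
      simp only [lv_G, lv_F, lv_I, lv_Z] at this
      omega
  have hZP : Z ∈ P := by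
    rcases List.mem_append.1 hZ with h1 | h1
    · have := hO12 Z h1 (G 0) (List.mem_cons_self ..) trivial
      simp only [lv_G, lv_F, lv_I, lv_Z] at this
      omega
    rcases List.mem_cons.1 h1 with h1 | h1
    · exact absurd h1 (by simp)
    · exact h1
  have hlow := d.lower d.n 0 (by omega) L hO1 (fun j hj hj' => by
      obtain ⟨h1, h2⟩ := hFj j hj hj'
      exact ⟨hin _ trivial (by simp only [lv_G, lv_F, lv_I, lv_Z]; omega) h1,
        hin _ trivial (by simp only [lv_G, lv_F, lv_I, lv_Z]; omega) h2⟩) (fun i _ => Nat.zero_le i)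
  rw [sum_Ico_two] at hlow
  have hsplit := d.cw_split (g := G 0) rfl L P
  have hZ2 : 2 * ((d.n + 1) * d.W) ≤ d.cw P := d.le_cw hZP
  rw [hsplit, d.hs_perm hπ] at hc
  unfold K at hc
  -- the good condition at `G 0`
  have hgood : ∀ L : List Job, d.good (L ++ G 0 :: P) → d.good (G 0 :: P) := by
    intro L
    induction L with
    | nil => exact id
    | cons j L ih => exact fun h => ih h.2
  obtain ⟨hg1, -⟩ := hgood L hg
  have hnd : (L ++ G 0 :: P).Nodup := by
    rw [hπ.nodup_iff]
    unfold jobs
    rw [List.nodup_append, List.nodup_append]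
    refine ⟨⟨?_, ?_, ?_⟩, by simp, ?_⟩
    · exact List.nodup_range.map (fun a b h => by simpa using h)
    · rw [List.nodup_flatMap]
      refine ⟨fun k _ => by simp, ?_⟩
      refine List.Pairwise.imp ?_ (List.nodup_range (n := d.n))
      intro a b hab
      simp [Function.onFun, List.disjoint_left, hab]
    · intro a ha b hb
      simp only [List.mem_map] at ha
      obtain ⟨k, -, rfl⟩ := ha
      simp only [List.mem_flatMap] at hb
      obtain ⟨m, -, hb⟩ := hb
      simp only [List.mem_cons, List.not_mem_nil, or_false] at hb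
      rcases hb with rfl | rfl <;> simp
    · intro a ha b hb
      simp only [List.mem_singleton] at hb
      subst hb
      simp only [List.mem_append, List.mem_map, List.mem_flatMap, List.mem_cons,
        List.not_mem_nil, or_false] at ha
      rcases ha with ⟨k, -, rfl⟩ | ⟨k, -, rfl | rfl⟩ <;> simp
  -- handling times in `P`
  have hsP : d.it P + 1 ≤ d.hs P := by
    have h1 : P.Nodup := (List.nodup_cons.1 (List.nodup_append.1 hnd).2.1).2
    unfold hs it
    have h2 : (P.map d.h).sum = ∑ q ∈ P.toFinset, d.h q := (List.sum_toFinset _ h1).symm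
    rw [h2]
    have h3 : insert Z (((Finset.range d.n).filter (fun i => I i ∈ P)).image I) ⊆ P.toFinset := by
      intro q hq
      rw [Finset.mem_insert, Finset.mem_image] at hq
      rw [List.mem_toFinset]
      rcases hq with rfl | ⟨i, hi, rfl⟩
      · exact hZP
      · exact (Finset.mem_filter.1 hi).2
    refine le_trans ?_ (Finset.sum_le_sum_of_subset h3)
    rw [Finset.sum_insert (by simp), Finset.sum_image (fun a _ b _ h => by simpa using h)]
    simp only [h]
    omega
  have hGV : d.h (G 0) = 2 * d.V := by simp [h]; ring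
  have hD0 : d.D (G 0) = 2 * ((d.n + 1) * d.W) + 1 + d.t + 2 * d.V := rfl
  have hwk : d.wk (G 0 :: P) = d.cw P := by
    unfold cw
    simp only [wk_cons, x]
    omega
  rw [hs_cons, hGV, hwk, hD0] at hg1
  have hPle : d.it P ≤ d.t := by omega
  -- all items
  have hall : d.S ≤ d.it L + d.it P := by
    have h1 : d.S = d.it (L ++ G 0 :: P) := by
      unfold S it
      congr 1
      ext i
      rw [Finset.mem_filter, hIj, Finset.mem_range]
      tauto
    rw [h1]
    apply d.it_le_add
    intro i hi
    rcases List.mem_append.1 hi with h1 | h1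
    · exact Or.inl h1
    rcases List.mem_cons.1 h1 with h1 | h1
    · exact absurd h1 (by simp)
    · exact Or.inr h1
  have hW : d.W = d.S + 1 := rfl
  have hLle : d.it L ≤ d.S - d.t := by
    rcases le_total (2 * d.W) (2 * d.it L) with h1 | h1
    · rw [min_eq_left h1] at hlow
      omega
    · rw [min_eq_right h1] at hlow
      omega
  refine ⟨(Finset.range d.n).filter (fun i => I i ∈ P), Finset.filter_subset _ _, ?_⟩
  change d.it P = d.t
  omega

end Dat

end Pool.Agent.Y605.VS
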