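import Pool.Agent.Y605.VS.Abs

/-!
# Single-vehicle scheduling on a line: from a subset to a schedule
-/

set_option autoImplicit false

namespace Pool.Agent.Y605.VS

open Job

namespace Dat

variable (d : Dat) (s : Finset ℕ)

theorem jobs_nodup : d.jobs.Nodup := by
  unfold jobs
  rw [List.nodup_append, List.nodup_append]
  refine ⟨⟨?_, ?_, ?_⟩, by simp, ?_⟩
  · exact List.nodup_range.map (fun a b h => by simpa using h)
  · rw [List.nodup_flatMap]
    refine ⟨fun k _ => by simp, ?_⟩
    refine List.Pairwise.imp ?_ (List.nodup_range (n := d.n))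
    intro a b hab
    simp [Function.onFun, List.disjoint_left, hab]
  · intro a ha b hb
    simp only [List.mem_map] at ha
    obtain ⟨k, -, rfl⟩ := ha
    simp only [List.mem_flatMap] at hb
    obtain ⟨m, -, hb⟩ := hb
    simp only [List.mem_cons, List.not_mem_nil, or_false] at hb
    rcases hb with rfl | rfl <;> simp
  · intro a ha b hb
    simp only [List.mem_singleton] at hb
    subst hb
    simp only [List.mem_append, List.mem_map, List.mem_flatMap, List.mem_cons,
      List.not_mem_nil, or_false] at ha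
    rcases ha with ⟨k, -, rfl⟩ | ⟨k, -, rfl | rfl⟩ <;> simp

/-- early items -/
def el : ℕ → List Job
  | 0 => []
  | m + 1 => if m ∈ s then I m :: el m else el m

/-- the schedule -/
def tl : ℕ → List Job
  | 0 => G 0 :: Z :: el s d.n
  | k + 1 => G (k + 1) :: (if k ∈ s then F k :: tl k else I k :: F k :: tl k)

theorem mem_el (m : ℕ) (q : Job) : q ∈ el s m ↔ ∃ i, i < m ∧ i ∈ s ∧ q = I i := by
  induction m with
  | zero => simp [el]
  | succ m ih =>
    unfold el
    split_ifs with h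
    · rw [List.mem_cons, ih]
      constructor
      · rintro (rfl | ⟨i, h1, h2, h3⟩)
        · exact ⟨m, by omega, h, rfl⟩
        · exact ⟨i, by omega, h2, h3⟩
      · rintro ⟨i, h1, h2, h3⟩
        rcases Nat.lt_succ_iff_lt_or_eq.1 h1 with h4 | rfl
        · exact Or.inr ⟨i, h4, h2, h3⟩
        · exact Or.inl h3
    · rw [ih]
      constructor
      · rintro ⟨i, h1, h2, h3⟩
        exact ⟨i, by omega, h2, h3⟩
      · rintro ⟨i, h1, h2, h3⟩
        rcases Nat.lt_succ_iff_lt_or_eq.1 h1 with h4 | rfl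
        · exact ⟨i, h4, h2, h3⟩
        · exact absurd h2 h

theorem el_nodup (m : ℕ) : (el s m).Nodup := by
  induction m with
  | zero => simp [el]
  | succ m ih =>
    unfold el
    split_ifs with h
    · rw [List.nodup_cons]
      refine ⟨fun hm => ?_, ih⟩
      rw [mem_el] at hm
      obtain ⟨i, h1, -, h3⟩ := hm
      simp only [I.injEq] at h3
      omega
    · exact ih

theorem mem_tl (k : ℕ) (q : Job) : q ∈ d.tl s k ↔ (∃ i, i ≤ k ∧ q = G i) ∨ q = Z ∨
    (∃ i, i < d.n ∧ i ∈ s ∧ q = I i) ∨ (∃ i, i < k ∧ q = F i) ∨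
      (∃ i, i < k ∧ i ∉ s ∧ q = I i) := by
  induction k with
  | zero =>
    simp only [tl, List.mem_cons, mem_el]
    simp
  | succ k ih =>
    unfold tl
    constructor
    · intro hq
      rcases List.mem_cons.1 hq with h1 | h1
      · exact Or.inl ⟨k + 1, le_refl _, h1⟩
      have h2 : q = F k ∨ (k ∉ s ∧ q = I k) ∨ q ∈ d.tl s k := by
        split_ifs at h1 with hk
        · rcases List.mem_cons.1 h1 with h1 | h1
          · exact Or.inl h1
          · exact Or.inr (Or.inr h1)
        · rcases List.mem_cons.1 h1 with h1 | h1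
          · exact Or.inr (Or.inl ⟨hk, h1⟩)
          rcases List.mem_cons.1 h1 with h1 | h1
          · exact Or.inl h1
          · exact Or.inr (Or.inr h1)
      rcases h2 with h2 | ⟨h2, h3⟩ | h2
      · exact Or.inr (Or.inr (Or.inr (Or.inl ⟨k, by omega, h2⟩)))
      · exact Or.inr (Or.inr (Or.inr (Or.inr ⟨k, by omega, h2, h3⟩)))
      · rw [ih] at h2
        rcases h2 with ⟨i, h2, h3⟩ | h2 | h2 | ⟨i, h2, h3⟩ | ⟨i, h2, h3⟩
        · exact Or.inl ⟨i, by omega, h3⟩
        · exact Or.inr (Or.inl h2)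
        · exact Or.inr (Or.inr (Or.inl h2))
        · exact Or.inr (Or.inr (Or.inr (Or.inl ⟨i, by omega, h3⟩)))
        · exact Or.inr (Or.inr (Or.inr (Or.inr ⟨i, by omega, h3⟩)))
    · intro hq
      have h2 : q = G (k + 1) ∨ q = F k ∨ (k ∉ s ∧ q = I k) ∨ q ∈ d.tl s k := by
        rw [ih]
        rcases hq with ⟨i, h2, h3⟩ | h2 | h2 | ⟨i, h2, h3⟩ | ⟨i, h2, h3, h4⟩
        · rcases Nat.eq_or_lt_of_le h2 with rfl | h4
          · exact Or.inl h3
          · exact Or.inr (Or.inr (Or.inr (Or.inl ⟨i, by omega, h3⟩)))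
        · exact Or.inr (Or.inr (Or.inr (Or.inr (Or.inl h2))))
        · exact Or.inr (Or.inr (Or.inr (Or.inr (Or.inr (Or.inl h2)))))
        · rcases Nat.lt_succ_iff_lt_or_eq.1 h2 with h4 | rfl
          · exact Or.inr (Or.inr (Or.inr (Or.inr (Or.inr (Or.inr (Or.inl ⟨i, h4, h3⟩))))))
          · exact Or.inr (Or.inl h3)
        · rcases Nat.lt_succ_iff_lt_or_eq.1 h2 with h5 | rfl
          · exact Or.inr (Or.inr (Or.inr (Or.inr (Or.inr (Or.inr (Or.inr ⟨i, h5, h3, h4⟩))))))
          · exact Or.inr (Or.inr (Or.inl ⟨h3, h4⟩))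
      rcases h2 with h2 | h2 | ⟨h2, h3⟩ | h2
      · rw [h2]; exact List.mem_cons_self ..
      · refine List.mem_cons_of_mem _ ?_
        rw [h2]
        split_ifs <;> simp
      · refine List.mem_cons_of_mem _ ?_
        rw [if_neg h2, h3]
        simp
      · refine List.mem_cons_of_mem _ ?_
        split_ifs
        · exact List.mem_cons_of_mem _ h2
        · exact List.mem_cons_of_mem _ (List.mem_cons_of_mem _ h2)

theorem tl_nodup (k : ℕ) (hk : k ≤ d.n) : (d.tl s k).Nodup := by
  induction k with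
  | zero =>
    unfold tl
    rw [List.nodup_cons, List.nodup_cons]
    refine ⟨?_, ?_, el_nodup s _⟩
    · rw [List.mem_cons, mem_el]
      simp
    · rw [mem_el]
      simp
  | succ k ih =>
    have ih := ih (by omega)
    have hF : F k ∉ d.tl s k := by
      rw [mem_tl]
      simp
    have hI : k ∉ s → I k ∉ d.tl s k := by
      intro hks
      rw [mem_tl]
      simp [hks]
    have hG : G (k + 1) ∉ d.tl s k := by
      rw [mem_tl]
      simp
    unfold tl
    split_ifs with hks
    · rw [List.nodup_cons, List.nodup_cons]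
      exact ⟨by simp [hG], hF, ih⟩
    · rw [List.nodup_cons, List.nodup_cons, List.nodup_cons]
      exact ⟨by simp [hG], by simp [hI hks], hF, ih⟩

theorem tl_perm : (d.tl s d.n).Perm d.jobs := by
  rw [List.perm_ext_iff_of_nodup (d.tl_nodup s _ (le_refl _)) d.jobs_nodup]
  intro q
  rw [mem_tl]
  simp only [jobs, List.mem_append, List.mem_map, List.mem_range, List.mem_flatMap,
    List.mem_cons, List.not_mem_nil, or_false]
  constructor
  · rintro (⟨i, h2, rfl⟩ | rfl | ⟨i, h2, h3, rfl⟩ | ⟨i, h2, rfl⟩ | ⟨i, h2, h3, rfl⟩)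
    · exact Or.inl (Or.inl ⟨i, by omega, rfl⟩)
    · exact Or.inr rfl
    · exact Or.inl (Or.inr ⟨i, h2, Or.inr rfl⟩)
    · exact Or.inl (Or.inr ⟨i, h2, Or.inl rfl⟩)
    · exact Or.inl (Or.inr ⟨i, h2, Or.inr rfl⟩)
  · rintro ((⟨i, h2, rfl⟩ | ⟨i, h2, rfl | rfl⟩) | rfl)
    · exact Or.inl ⟨i, by omega, rfl⟩
    · exact Or.inr (Or.inr (Or.inr (Or.inl ⟨i, h2, rfl⟩)))
    · by_cases hi : i ∈ s
      · exact Or.inr (Or.inr (Or.inl ⟨i, h2, hi, rfl⟩))
      · exact Or.inr (Or.inr (Or.inr (Or.inr ⟨i, h2, hi, rfl⟩)))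
    · exact Or.inr (Or.inl rfl)

/-- deadlines are respected -/
def goodD : List Job → Prop
  | [] => True
  | j :: l => d.wk (j :: l) + d.hs (j :: l) ≤ d.D j ∧ goodD l

theorem good_of_goodD (l : List Job) (h : d.goodD l) (hK : d.wk l + d.hs l ≤ d.K) : d.good l := by
  induction l with
  | nil => trivial
  | cons j l ih =>
    obtain ⟨h1, h2⟩ := h
    refine ⟨by omega, ih h2 ?_⟩
    simp only [wk_cons, hs_cons] at hK
    omega

theorem a_le_S {k : ℕ} (hk : k < d.n) : d.a k ≤ d.S :=
  Finset.single_le_sum (f := d.a) (fun _ _ => Nat.zero_le _) (Finset.mem_range.2 hk)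

/-- early part of the total size -/
def es (m : ℕ) : ℕ := ∑ i ∈ (Finset.range m).filter (· ∈ s), d.a i

/-- late part of the total size -/
def ls (m : ℕ) : ℕ := ∑ i ∈ (Finset.range m).filter (· ∉ s), d.a i

theorem es_succ (m : ℕ) : d.es s (m + 1) = d.es s m + if m ∈ s then d.a m else 0 := by
  unfold es
  rw [Finset.range_add_one, Finset.filter_insert]
  split_ifs with h
  · rw [Finset.sum_insert (by simp)]
    ring
  · simp

theorem ls_succ (m : ℕ) : d.ls s (m + 1) = d.ls s m + if m ∈ s then 0 else d.a m := by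
  unfold ls
  rw [Finset.range_add_one, Finset.filter_insert]
  split_ifs with h
  · simp
  · rw [Finset.sum_insert (by simp)]
    ring

theorem es_add_ls : d.es s d.n + d.ls s d.n = d.S := by
  unfold es ls S
  rw [Finset.sum_filter_add_sum_filter_not]

theorem es_mono {m m' : ℕ} (h : m ≤ m') : d.es s m ≤ d.es s m' := by
  unfold es
  refine Finset.sum_le_sum_of_subset (fun i hi => ?_)
  simp only [Finset.mem_filter, Finset.mem_range] at hi ⊢
  exact ⟨by omega, hi.2⟩

theorem ls_mono {m m' : ℕ} (h : m ≤ m') : d.ls s m ≤ d.ls s m' := by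
  unfold ls
  refine Finset.sum_le_sum_of_subset (fun i hi => ?_)
  simp only [Finset.mem_filter, Finset.mem_range] at hi ⊢
  exact ⟨by omega, hi.2⟩

theorem V_le_D (j : Job) : d.V ≤ d.V * (2 ^ (lv j + 1) - 1) := by
  refine Nat.le_mul_of_pos_right _ ?_
  have : 2 ≤ 2 ^ (lv j + 1) := by
    calc 2 = 2 ^ 1 := rfl
      _ ≤ 2 ^ (lv j + 1) := Nat.pow_le_pow_right (by norm_num) (by omega)
  omega

theorem el_spec (m : ℕ) (hm : m ≤ d.n) : d.goodD (el s m) ∧ d.wk (el s m) = d.ps (el s m) ∧
    d.ps (el s m) ≤ (m + 1) * d.W ∧ d.hs (el s m) = d.es s m := by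
  induction m with
  | zero =>
    refine ⟨trivial, rfl, by simp [el, ps_nil], ?_⟩
    simp [el, es]
  | succ m ih =>
    obtain ⟨h1, h2, h3, h4⟩ := ih (by omega)
    have hW : d.W = d.S + 1 := rfl
    have ha := d.a_le_S (k := m) (by omega)
    have e1 : (m + 1 + 1) * d.W = (m + 1) * d.W + d.W := by ring
    have hV : d.V = 2 * ((d.n + 1) * d.W) + d.n * (d.n + 1) * d.W + 3 * d.S + 2 := rfl
    have hX : (m + 1 + 1) * d.W ≤ (d.n + 1) * d.W := Nat.mul_le_mul_right _ (by omega)
    have hes : d.es s (m + 1) ≤ d.S := by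
      have := d.es_mono s hm
      have := d.es_add_ls s
      omega
    rw [es_succ] at hes ⊢
    unfold el
    split_ifs with h
    · rw [if_pos h] at hes
      have hx : d.x (I m) = (m + 1) * d.W + d.a m := rfl
      have hwk : d.wk (I m :: el s m) = d.x (I m) := by
        simp only [wk_cons, h2, hx]
        omega
      refine ⟨⟨?_, h1⟩, ?_, ?_, ?_⟩
      · rw [hwk, hs_cons, h4, hx]
        have h5 := d.V_le_D (I m)
        change _ ≤ d.V * (2 ^ (lv (I m) + 1) - 1)
        have h6 : d.h (I m) = d.a m := rfl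
        rw [h6]
        omega
      · rw [hwk]; rfl
      · rw [ps_cons, hx]
        omega
      · rw [hs_cons, h4]
        have h6 : d.h (I m) = d.a m := rfl
        rw [h6]
        ring
    · exact ⟨h1, h2, by omega, by omega⟩

theorem tl_spec (ht : d.es s d.n = d.t) (k : ℕ) (hk : k ≤ d.n) : d.goodD (d.tl s k) ∧
    d.ps (d.tl s k) = 0 ∧
    d.wk (d.tl s k) = 2 * ((d.n + 1) * d.W) + k * (k + 1) * d.W + 2 * d.ls s k ∧
    d.hs (d.tl s k) = 1 + d.t + d.V * (2 ^ (2 * k + 2) - 2) + d.ls s k := by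
  have hV : d.V = 2 * ((d.n + 1) * d.W) + d.n * (d.n + 1) * d.W + 3 * d.S + 2 := rfl
  have hS := d.es_add_ls s
  induction k with
  | zero =>
    obtain ⟨h1, h2, h3, h4⟩ := d.el_spec s d.n (le_refl _)
    have hwZ : d.wk (Z :: el s d.n) = (d.n + 1) * d.W := by
      simp only [wk_cons, h2]
      have : d.x Z = (d.n + 1) * d.W := rfl
      omega
    have hsZ : d.hs (Z :: el s d.n) = 1 + d.t := by
      rw [hs_cons, h4, ht]; rfl
    have hwG : d.wk (G 0 :: Z :: el s d.n) = 2 * ((d.n + 1) * d.W) := by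
      rw [wk_cons, hwZ, ps_cons]
      have h5 : d.x Z = (d.n + 1) * d.W := rfl
      have h6 : d.x (G 0) = 0 := rfl
      omega
    have hsG : d.hs (G 0 :: Z :: el s d.n) = 1 + d.t + 2 * d.V := by
      rw [hs_cons, hsZ]
      have : d.h (G 0) = 2 * d.V := by simp [h]; ring
      omega
    have hl0 : d.ls s 0 = 0 := by simp [ls]
    refine ⟨⟨?_, ?_, h1⟩, rfl, ?_, ?_⟩
    · rw [hwG, hsG]
      change _ ≤ 2 * ((d.n + 1) * d.W) + 1 + d.t + 2 * d.V
      omega
    · rw [hwZ, hsZ]
      have h5 := d.V_le_D Z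
      change _ ≤ d.V * (2 ^ (lv Z + 1) - 1)
      omega
    · simp only [tl]
      rw [hwG, hl0]
      omega
    · simp only [tl]
      rw [hsG, hl0]
      norm_num
      ring
  | succ k ih =>
    obtain ⟨h1, h2, h3, h4⟩ := ih (by omega)
    have e1 : (k + 1) * (k + 1 + 1) * d.W = k * (k + 1) * d.W + 2 * ((k + 1) * d.W) := by ring
    have hX : (k + 1) * (k + 1 + 1) * d.W ≤ d.n * (d.n + 1) * d.W :=
      Nat.mul_le_mul_right _ (Nat.mul_le_mul hk (by omega))
    have hls : d.ls s (k + 1) ≤ d.ls s d.n := d.ls_mono s hk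
    have hl1 := d.ls_succ s k
    -- powers
    set A := 2 ^ (2 * k + 2) with hA
    have hA4 : 4 ≤ A := by
      rw [hA]
      calc 4 = 2 ^ 2 := rfl
        _ ≤ 2 ^ (2 * k + 2) := Nat.pow_le_pow_right (by norm_num) (by omega)
    have hA3 : 2 ^ (2 * k + 3) = 2 * A := by rw [hA]; ring
    have hA4' : 2 ^ (2 * (k + 1) + 2) = 4 * A := by rw [hA]; ring
    have m1 : d.V * (A - 2) = d.V * A - 2 * d.V := by rw [Nat.mul_sub]; omega
    have m2 : d.V * (2 * A - 1) = 2 * (d.V * A) - d.V := by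
      rw [Nat.mul_sub, mul_one]
      congr 1
      ring
    have m3 : d.V * (4 * A - 1) = 4 * (d.V * A) - d.V := by
      rw [Nat.mul_sub, mul_one]
      congr 1
      ring
    have m4 : d.V * (4 * A - 2) = 4 * (d.V * A) - 2 * d.V := by
      rw [Nat.mul_sub, mul_comm d.V 2]
      congr 1
      ring
    have hVA : 4 * d.V ≤ d.V * A := by
      rw [mul_comm]
      exact Nat.mul_le_mul_left _ hA4
    have hxF : d.x (F k) = (k + 1) * d.W := rfl
    have hxI : d.x (I k) = (k + 1) * d.W + d.a k := rfl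
    have hxG : d.x (G (k + 1)) = 0 := rfl
    have hhF : d.h (F k) = d.V * A := rfl
    have hhI : d.h (I k) = d.a k := rfl
    have hhG : d.h (G (k + 1)) = 2 * (d.V * A) := by
      change d.V * 2 ^ (2 * (k + 1) + 1) = _
      have : 2 ^ (2 * (k + 1) + 1) = 2 * A := by rw [hA]; ring
      rw [this]; ring
    have hDF : d.D (F k) = 2 * (d.V * A) - d.V := by
      change d.V * (2 ^ (2 * k + 3) - 1) = _
      rw [hA3, m2]
    have hDI : d.D (I k) = 2 * (d.V * A) - d.V := by
      change d.V * (2 ^ (2 * k + 3) - 1) = _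
      rw [hA3, m2]
    have hDG : d.D (G (k + 1)) = 4 * (d.V * A) - d.V := by
      change d.V * (2 ^ (2 * (k + 1) + 2) - 1) = _
      rw [hA4', m3]
    have hwF : d.wk (F k :: d.tl s k) = (k + 1) * d.W + d.wk (d.tl s k) := by
      rw [wk_cons, h2, hxF]
      omega
    have hsF : d.hs (F k :: d.tl s k) = d.V * A + d.hs (d.tl s k) := by
      rw [hs_cons, hhF]
    rw [hA4', m4]
    rw [m1] at h4
    by_cases hks : k ∈ s
    · rw [if_pos hks] at hl1
      have htl : d.tl s (k + 1) = G (k + 1) :: F k :: d.tl s k := by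
        rw [tl, if_pos hks]
      have hwG : d.wk (G (k + 1) :: F k :: d.tl s k) =
          (k + 1) * d.W + ((k + 1) * d.W + d.wk (d.tl s k)) := by
        rw [wk_cons, hwF, hxG, ps_cons, hxF]
        omega
      have hsG : d.hs (G (k + 1) :: F k :: d.tl s k) =
          2 * (d.V * A) + (d.V * A + d.hs (d.tl s k)) := by
        rw [hs_cons, hsF, hhG]
      rw [htl]
      refine ⟨⟨?_, ?_, h1⟩, hxG, ?_, ?_⟩
      · rw [hwG, hsG, hDG, h3, h4]
        omega
      · rw [hwF, hsF, hDF, h3, h4]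
        omega
      · rw [hwG, h3, hl1, e1]
        omega
      · rw [hsG, h4, hl1]
        omega
    · rw [if_neg hks] at hl1
      have htl : d.tl s (k + 1) = G (k + 1) :: I k :: F k :: d.tl s k := by
        rw [tl, if_neg hks]
      have hwI : d.wk (I k :: F k :: d.tl s k) =
          d.a k + ((k + 1) * d.W + d.wk (d.tl s k)) := by
        rw [wk_cons, hwF, ps_cons, hxF, hxI]
        omega
      have hsI : d.hs (I k :: F k :: d.tl s k) = d.a k + (d.V * A + d.hs (d.tl s k)) := by
        rw [hs_cons, hsF, hhI]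
      have hwG : d.wk (G (k + 1) :: I k :: F k :: d.tl s k) =
          ((k + 1) * d.W + d.a k) + (d.a k + ((k + 1) * d.W + d.wk (d.tl s k))) := by
        rw [wk_cons, hwI, hxG, ps_cons, hxI]
        omega
      have hsG : d.hs (G (k + 1) :: I k :: F k :: d.tl s k) =
          2 * (d.V * A) + (d.a k + (d.V * A + d.hs (d.tl s k))) := by
        rw [hs_cons, hsI, hhG]
      rw [htl]
      refine ⟨⟨?_, ?_, ?_, h1⟩, hxG, ?_, ?_⟩
      · rw [hwG, hsG, hDG, h3, h4]
        omega
      · rw [hwI, hsI, hDI, h3, h4]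
        omega
      · rw [hwF, hsF, hDF, h3, h4]
        omega
      · rw [hwG, h3, hl1, e1]
        omega
      · rw [hsG, h4, hl1]
        omega

theorem complete (hs : s ⊆ Finset.range d.n) (ht : ∑ i ∈ s, d.a i = d.t) :
    ∃ π : List Job, π.Perm d.jobs ∧ d.good π ∧ d.cw π + d.hs π ≤ d.K := by
  have h0 : d.es s d.n = d.t := by
    unfold es
    rw [← ht]
    congr 1
    ext i
    rw [Finset.mem_filter]
    exact ⟨fun h => h.2, fun h => ⟨hs h, h⟩⟩
  obtain ⟨h1, h2, h3, h4⟩ := d.tl_spec s h0 d.n (le_refl _)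
  have hp := d.tl_perm s
  have hls : d.ls s d.n = d.S - d.t := by
    have := d.es_add_ls s
    omega
  have hfin : d.cw (d.tl s d.n) + d.hs (d.tl s d.n) ≤ d.K := by
    unfold cw K
    rw [h2, h3, hls, d.hs_perm hp]
    omega
  refine ⟨d.tl s d.n, hp, d.good_of_goodD _ h1 ?_, hfin⟩
  unfold cw at hfin
  omega

end Dat

end Pool.Agent.Y605.VS
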