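import Pool.Agent.NPC.Defs

/-!
# Single-vehicle scheduling on a line with release and handling times: definitions
-/

namespace Pool.Agent.Y605.VS

/-- An instance of the problem.  The vertices of the path are numbered `0, 1, …, m - 1` along the
line.  The data are: the list of the pairs (release time, handling time) of the jobs at the
vertices `0, …, m - 1`, the list of the pairs (travel time from `i` to `i + 1`, travel time from
`i + 1` to `i`) for the edges, the number of the start vertex, and the bound `K`. -/
abbrev Ins : Type := List (ℕ × ℕ) × List (ℕ × ℕ) × ℕ × ℕ

/-- Release time of the job at the vertex `i`. -/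
def rel (I : Ins) (i : ℕ) : ℕ := (I.1.getD i (0, 0)).1

/-- Handling time of the job at the vertex `i`. -/
def hdl (I : Ins) (i : ℕ) : ℕ := (I.1.getD i (0, 0)).2

/-- Travel time from the vertex `i` to the vertex `j` along the path (one of the two sums is
empty). -/
def travel (I : Ins) (i j : ℕ) : ℕ :=
  ∑ k ∈ Finset.Ico i j, (I.2.1.getD k (0, 0)).1 + ∑ k ∈ Finset.Ico j i, (I.2.1.getD k (0, 0)).2

/-- The time at which the vehicle is back at the start vertex, if it is at the vertex `v` at the
time `t`, and processes the jobs of a list in this order: it goes to the next job, waits for its
release time if it is early, and processes it without interruption. -/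
def finish (I : Ins) : ℕ → ℕ → List ℕ → ℕ
  | v, t, [] => t + travel I v I.2.2.1
  | v, t, j :: l => finish I j (max (t + travel I v j) (rel I j) + hdl I j) l

/-- The data describe a path with `m ≥ 1` vertices, the start vertex is one of them, and all
handling times are positive. -/
def Valid (I : Ins) : Prop :=
  I.1.length = I.2.1.length + 1 ∧ I.2.2.1 < I.1.length ∧ ∀ i < I.1.length, 0 < hdl I i

/-- The decision problem: is there an order of all jobs such that the vehicle, which is at the
start vertex at time `0`, is back there at time `K` at the latest? -/
def Sched (I : Ins) : Prop :=
  Valid I ∧ ∃ π : List ℕ, π.Perm (List.range I.1.length) ∧ finish I I.2.2.1 0 π ≤ I.2.2.2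

end Pool.Agent.Y605.VS
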