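import Pool.Agent.Y605.VS.Link

/-!
# Single-vehicle scheduling on a line is NP-hard: the reduction is computable in polynomial time
-/

set_option autoImplicit false

namespace Pool.Agent.Y605.VS

open Job Pool.Agent.NPC

/-- instances of subset sum -/
abbrev Y : Type := List ℕ × ℕ

def yW (y : Y) : ℕ := y.1.sum + 1
def yX (y : Y) : ℕ := (y.1.length + 1) * yW y
def yT (y : Y) : ℕ := y.1.length * (y.1.length + 1) * yW y
def yV (y : Y) : ℕ := 2 * yX y + yT y + 3 * y.1.sum + 2
/-- powers of four -/
def pw (y : Y) (k : ℕ) : ℕ := 2 ^ (2 * min k y.1.length)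

/-- positions, deadlines and handling times -/
def lst (y : Y) : List (ℕ × ℕ × ℕ) :=
  (List.range (y.1.length + 1)).map (fun k => ((0 : ℕ),
      (if k = 0 then 2 * yX y + 1 + y.2 + 2 * yV y else yV y * (4 * pw y k - 1)),
      yV y * (2 * pw y k))) ++
  (List.range y.1.length).flatMap (fun k =>
    [((k + 1) * yW y, yV y * (8 * pw y k - 1), yV y * (4 * pw y k)),
      ((k + 1) * yW y + y.1.getD k 0, yV y * (8 * pw y k - 1), y.1.getD k 0)]) ++
  [(yX y, yV y * 1, 1)]

def yK (y : Y) : ℕ :=
  2 * yX y + yT y + 2 * (y.1.sum - y.2) + ((lst y).map fun q => q.2.2).sum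

def red (y : Y) : Ins :=
  mk ((lst y).map fun q => (q.1, yK y - q.2.1, q.2.2)) (yK y)

theorem lst_eq (y : Y) : lst y = (dat y).jobs.map
    (fun j => ((dat y).x j, (dat y).D j, (dat y).h j)) := by
  have hS := dat_S y
  have hW : (dat y).W = yW y := by unfold Dat.W; rw [hS]; rfl
  have hX : ((dat y).n + 1) * (dat y).W = yX y := by rw [hW]; rfl
  have hV : (dat y).V = yV y := by
    unfold Dat.V
    rw [hX, hS, hW]
    rfl
  unfold lst Dat.jobs
  rw [List.map_append, List.map_append, List.map_map, List.map_flatMap]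
  congr 1
  · congr 1
    · apply List.map_congr_left
      intro k hk
      rw [List.mem_range] at hk
      have hpw : pw y k = 2 ^ (2 * k) := by unfold pw; rw [min_eq_left (by omega)]
      have e1 : 2 ^ (2 * k + 1) = 2 * 2 ^ (2 * k) := by ring
      have e2 : 2 ^ (2 * k + 1 + 1) = 4 * 2 ^ (2 * k) := by ring
      simp only [Function.comp, Dat.x, Dat.h, hV, hpw, e1]
      congr 2
      cases k with
      | zero =>
        simp only [if_true, Dat.D, hX, hV]
        rfl
      | succ k =>
        simp only [Dat.D, hV, lv]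
        rw [if_neg (by omega), e2]
    · refine List.flatMap_congr ?_
      intro k hk
      rw [List.mem_range] at hk
      have hpw : pw y k = 2 ^ (2 * k) := by unfold pw; rw [min_eq_left (by omega)]
      have e1 : 2 ^ (2 * k + 2) = 4 * 2 ^ (2 * k) := by ring
      have e2 : 2 ^ (2 * k + 2 + 1) = 8 * 2 ^ (2 * k) := by ring
      simp only [List.map_cons, List.map_nil, Dat.x, Dat.h, Dat.D, lv, hV, hW, hpw, e1, e2]
      rfl
  · simp only [List.map_cons, List.map_nil, Dat.x, Dat.h, Dat.D, lv, hX, hV]
    rfl

theorem yK_eq (y : Y) : yK y = (dat y).K := by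
  have hS := dat_S y
  have hW : (dat y).W = yW y := by unfold Dat.W; rw [hS]; rfl
  have hX : ((dat y).n + 1) * (dat y).W = yX y := by rw [hW]; rfl
  unfold yK Dat.K Dat.hs
  rw [lst_eq, List.map_map, hX, hW, hS]
  rfl

theorem red_eq (y : Y) : red y = (dat y).ins := by
  unfold red Dat.ins
  rw [yK_eq, lst_eq, List.map_map]
  rfl

/-! ### Polynomial time -/

theorem pw_poly : Poly (fun p : Y × ℕ => pw p.1 p.2) := by
  unfold pw
  refine Pool.Agent.CK.poly_pow2 ?_
  refine UPoly.mul (UPoly.const 2) ?_
  refine UPoly.of_le (n := fun p : Y × ℕ => p.1.1.length) (by fun_prop) ?_ (fun a => min_le_right _ _)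
  exact UPoly.length (Poly.fst (Poly.fst Poly.id))

theorem yW_poly : Poly yW := by unfold yW; fun_prop
attribute [local fun_prop] yW_poly pw_poly
attribute [local irreducible] yW pw
theorem yX_poly : Poly yX := by unfold yX; fun_prop
theorem yT_poly : Poly yT := by unfold yT; fun_prop
attribute [local fun_prop] yX_poly yT_poly
attribute [local irreducible] yX yT
theorem yV_poly : Poly yV := by unfold yV; fun_prop
attribute [local fun_prop] yV_poly
attribute [local irreducible] yV

theorem c_poly {α β : Type} [TEnc α] [TEnc β] {f : Y → β} (hf : Poly f) {g : α → Y} (hg : Poly g) :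
    Poly (fun a => f (g a)) := hf.comp hg

theorem pwc_poly {α : Type} [TEnc α] {g : α → Y} {k : α → ℕ} (hg : Poly g) (hk : Poly k) :
    Poly (fun a => pw (g a) (k a)) := pw_poly.comp (Poly.pair hg hk)

theorem lst_poly : Poly lst := by
  unfold lst
  have hlen : UPoly (fun y : Y => y.1.length) := UPoly.length (Poly.fst Poly.id)
  have hy : Poly (fun p : Y × ℕ => p.1) := Poly.fst Poly.id
  have hk : Poly (fun p : Y × ℕ => p.2) := Poly.snd Poly.id
  have hV : Poly (fun p : Y × ℕ => yV p.1) := c_poly yV_poly hy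
  have hX : Poly (fun p : Y × ℕ => yX p.1) := c_poly yX_poly hy
  have hW : Poly (fun p : Y × ℕ => yW p.1) := c_poly yW_poly hy
  have hp : Poly (fun p : Y × ℕ => pw p.1 p.2) := pw_poly
  refine NPC.Poly.append (NPC.Poly.append ?_ ?_) ?_
  · refine NPC.Poly.map (l := fun y : Y => List.range (y.1.length + 1))
      (F := fun y k => ((0 : ℕ),
      (if k = 0 then 2 * yX y + 1 + y.2 + 2 * yV y else yV y * (4 * pw y k - 1)),
      yV y * (2 * pw y k))) ((hlen.add (UPoly.const 1)).range) ?_
    fun_prop
  · refine NPC.Poly.flatMap (l := fun y : Y => List.range y.1.length) (F := fun y k =>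
      [((k + 1) * yW y, yV y * (8 * pw y k - 1), yV y * (4 * pw y k)),
      ((k + 1) * yW y + y.1.getD k 0, yV y * (8 * pw y k - 1), y.1.getD k 0)]) hlen.range ?_
    fun_prop
  · fun_prop

attribute [local fun_prop] lst_poly
attribute [local irreducible] lst

theorem yK_poly : Poly yK := by
  unfold yK
  fun_prop

attribute [local fun_prop] yK_poly
attribute [local irreducible] yK

theorem red_poly : Poly red := by
  unfold red mk
  fun_prop

/-- restricted instances: the start vertex is an end of the path, and the travel times are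
symmetric -/
def Simple (I : Ins) : Prop := I.2.2.1 = 0 ∧ ∀ e ∈ I.2.1, e.1 = e.2

theorem hardPr : HardPr (fun I : Ins => Valid I ∧ Simple I) Sched := by
  refine R671.SS.hardPr_SubsetSum.trans red_poly ?_ ?_
  · intro y hy
    rw [red_eq]
    refine ⟨?_, rfl, mk_symm _ _⟩
    refine Dat.ins_valid _ ?_
    intro k hk
    have hk' : k < y.1.length := hk
    have : (dat y).a k = y.1[k] := by simp [dat, List.getD_eq_getElem?_getD, hk']
    rw [this]
    exact (hy.1 _ (List.getElem_mem hk')).1
  · intro y hy
    rw [red_eq]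
    exact red_iff y hy

theorem npHard_sched : NPHardP Sched := hardPr.toHardI.toNPHardP

theorem npHard_simple : NPHardP (fun I : Ins => Simple I ∧ Sched I) := by
  refine HardI.toNPHardP ?_
  intro L hL
  obtain ⟨f, h1, h2, h3⟩ := hardPr L hL
  exact ⟨f, h1, fun x => (h3 x).trans ⟨fun h => ⟨(h2 x).2, h⟩, fun h => h.2⟩⟩

end Pool.Agent.Y605.VS
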