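import Pool.Agent.Y605.VS.Defs

/-!
# Single-vehicle scheduling on a line: schedules read backwards
-/

set_option autoImplicit false

namespace Pool.Agent.Y605.VS

variable (I : Ins)

/-- time needed from `v` without waiting -/
def rem : ℕ → List ℕ → ℕ
  | v, [] => travel I v I.2.2.1
  | v, j :: l => travel I v j + hdl I j + rem j l

/-- the constraints given by the release times -/
def good (K : ℕ) : List ℕ → Prop
  | [] => True
  | j :: l => rel I j + hdl I j + rem I j l ≤ K ∧ good K l

theorem finish_le_iff (K : ℕ) (π : List ℕ) : ∀ v t, finish I v t π ≤ K ↔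
    t + rem I v π ≤ K ∧ good I K π := by
  induction π with
  | nil => intro v t; simp [finish, rem, good]
  | cons j l ih =>
    intro v t
    simp only [finish, rem, good, ih]
    constructor
    · rintro ⟨h1, h2⟩
      have h3 := le_max_left (t + travel I v j) (rel I j)
      have h4 := le_max_right (t + travel I v j) (rel I j)
      exact ⟨by omega, by omega, h2⟩
    · rintro ⟨h1, h2, h3⟩
      refine ⟨?_, h3⟩
      rcases max_choice (t + travel I v j) (rel I j) with h | h <;> rw [h] <;> omega

/-! ## Instances given by positions -/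

/-- The instance with start vertex `0`, bound `K`, and jobs `(position, release, handling)`. -/
def mk (Q : List (ℕ × ℕ × ℕ)) (K : ℕ) : Ins :=
  (Q.map fun q => q.2, (Q.zip Q.tail).map fun p => (p.2.1 - p.1.1, p.2.1 - p.1.1), 0, K)

/-- position of the vertex `i` -/
def ps (Q : List (ℕ × ℕ × ℕ)) (i : ℕ) : ℕ := (Q.getD i (0, 0, 0)).1

theorem edge_mk (Q : List (ℕ × ℕ × ℕ)) (K k : ℕ) (hk : k + 1 < Q.length) :
    (mk Q K).2.1.getD k (0, 0) = (ps Q (k + 1) - ps Q k, ps Q (k + 1) - ps Q k) := by
  have h1 : k < Q.length := by omega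
  have h2 : k < (Q.zip Q.tail).length := by simp; omega
  have h3 : (Q.zip Q.tail)[k]? = some (Q[k], Q[k + 1]) := by
    rw [List.getElem?_eq_getElem h2, List.getElem_zip, List.getElem_tail]
  simp [mk, ps, List.getD_eq_getElem?_getD, List.getElem?_map, hk, h1, h3]

theorem sum_tele (f : ℕ → ℕ) (m : ℕ) (hf : ∀ k, k + 1 < m → f k ≤ f (k + 1)) (i j : ℕ)
    (hij : i ≤ j) (hj : j < m) : ∑ k ∈ Finset.Ico i j, (f (k + 1) - f k) + f i = f j := by
  induction j, hij using Nat.le_induction with
  | base => simp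
  | succ j hij ih =>
    rw [Finset.sum_Ico_succ_top hij]
    have h1 := ih (by omega)
    have h2 := hf j hj
    omega

theorem travel_mk (Q : List (ℕ × ℕ × ℕ)) (K : ℕ)
    (hQ : ∀ k, k + 1 < Q.length → ps Q k ≤ ps Q (k + 1)) (i j : ℕ) (hi : i < Q.length)
    (hj : j < Q.length) : (travel (mk Q K) i j : ℤ) = |(ps Q i : ℤ) - ps Q j| := by
  have key : ∀ i j, i ≤ j → j < Q.length →
      (∑ k ∈ Finset.Ico i j, ((mk Q K).2.1.getD k (0, 0)).1 + ps Q i = ps Q j ∧
      ∑ k ∈ Finset.Ico i j, ((mk Q K).2.1.getD k (0, 0)).2 + ps Q i = ps Q j) := by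
    intro i j hij hj
    have h := sum_tele (ps Q) Q.length hQ i j hij hj
    constructor
    · rw [← h]
      congr 1
      refine Finset.sum_congr rfl fun k hk => ?_
      rw [Finset.mem_Ico] at hk
      rw [edge_mk Q K k (by omega)]
    · rw [← h]
      congr 1
      refine Finset.sum_congr rfl fun k hk => ?_
      rw [Finset.mem_Ico] at hk
      rw [edge_mk Q K k (by omega)]
  unfold travel
  rcases le_total i j with h | h
  · obtain ⟨h1, -⟩ := key i j h hj
    rw [Finset.Ico_eq_empty (a := j) (b := i) (by omega), Finset.sum_empty, add_zero]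
    rw [abs_of_nonpos (by omega)]
    omega
  · obtain ⟨-, h1⟩ := key j i h hi
    rw [Finset.Ico_eq_empty (a := i) (b := j) (by omega), Finset.sum_empty, zero_add]
    rw [abs_of_nonneg (by omega)]
    omega

theorem mk_valid (Q : List (ℕ × ℕ × ℕ)) (K : ℕ) (h0 : Q ≠ []) (h : ∀ q ∈ Q, 0 < q.2.2) :
    Valid (mk Q K) := by
  have hl : 0 < Q.length := List.length_pos_iff.2 h0
  refine ⟨?_, ?_, ?_⟩
  · simp [mk]; omega
  · simpa [mk] using hl
  · intro i hi
    have hi' : i < Q.length := by simpa [mk] using hi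
    have : hdl (mk Q K) i = Q[i].2.2 := by
      simp [hdl, mk, List.getD_eq_getElem?_getD, hi']
    rw [this]
    exact h _ (List.getElem_mem hi')

theorem mk_symm (Q : List (ℕ × ℕ × ℕ)) (K : ℕ) : ∀ e ∈ (mk Q K).2.1, e.1 = e.2 := by
  intro e he
  simp only [mk, List.mem_map] at he
  obtain ⟨p, -, rfl⟩ := he
  rfl

end Pool.Agent.Y605.VS
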