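import Pool.Agent.Y605.VS.Gen
import Pool.Agent.Y605.VS.Comp
import Pool.Agent.H671R2.SubsetSum
import Pool.Agent.H671R2.CK.K7

/-!
# Single-vehicle scheduling on a line is NP-hard
-/

set_option autoImplicit false

namespace Pool.Agent.Y605.VS

open Job Pool.Agent.NPC

namespace Dat

variable (d : Dat)

/-- vertex data -/
def vd (j : Job) : ℕ × ℕ × ℕ := (d.x j, d.K - d.D j, d.h j)

/-- the instance -/
def ins : Ins := VS.mk (d.jobs.map d.vd) d.K

/-- the job at a vertex -/
def jb (i : ℕ) : Job := d.jobs.getD i Z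

theorem pw_jobs : d.jobs.Pairwise (fun j j' => d.x j ≤ d.x j') := by
  have hW : d.W = d.S + 1 := rfl
  unfold jobs
  rw [List.pairwise_append, List.pairwise_append]
  refine ⟨⟨?_, ?_, ?_⟩, by simp, ?_⟩
  · rw [List.pairwise_map]
    exact List.pairwise_of_forall (fun a b => le_refl _)
  · rw [List.pairwise_flatMap]
    constructor
    · intro k _
      simp [x]
    · refine List.Pairwise.imp_of_mem ?_ (List.pairwise_lt_range (n := d.n))
      intro k k' hk hk' hlt p hp q hq
      rw [List.mem_range] at hk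
      have ha := d.a_le_S hk
      have h1 : (k + 1 + 1) * d.W ≤ (k' + 1) * d.W := Nat.mul_le_mul_right _ (by omega)
      have h2 : (k + 1 + 1) * d.W = (k + 1) * d.W + d.W := by ring
      simp only [List.mem_cons, List.not_mem_nil, or_false] at hp hq
      rcases hp with rfl | rfl <;> rcases hq with rfl | rfl <;> simp only [x] <;> omega
  · intro p hp q _
    simp only [List.mem_map] at hp
    obtain ⟨k, -, rfl⟩ := hp
    simp [x]
  · intro p hp q hq
    simp only [List.mem_singleton] at hq
    subst hq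
    simp only [List.mem_append, List.mem_map, List.mem_flatMap, List.mem_range, List.mem_cons,
      List.not_mem_nil, or_false] at hp
    rcases hp with ⟨k, -, rfl⟩ | ⟨k, hk, rfl | rfl⟩
    · simp [x]
    · simp only [x]
      exact Nat.mul_le_mul_right _ (by omega)
    · have ha := d.a_le_S hk
      have h1 : (k + 1 + 1) * d.W ≤ (d.n + 1) * d.W := Nat.mul_le_mul_right _ (by omega)
      have h2 : (k + 1 + 1) * d.W = (k + 1) * d.W + d.W := by ring
      simp only [x]
      omega

theorem getD_map {i : ℕ} (hi : i < d.jobs.length) :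
    (d.jobs.map d.vd).getD i (0, 0, 0) = d.vd (d.jb i) := by
  simp [jb, List.getD_eq_getElem?_getD, hi]

theorem ps_eq {i : ℕ} (hi : i < d.jobs.length) :
    VS.ps (d.jobs.map d.vd) i = d.x (d.jb i) := by
  unfold VS.ps
  rw [d.getD_map hi]
  rfl

theorem sorted (k : ℕ) (hk : k + 1 < (d.jobs.map d.vd).length) :
    VS.ps (d.jobs.map d.vd) k ≤ VS.ps (d.jobs.map d.vd) (k + 1) := by
  have hk' : k + 1 < d.jobs.length := by simpa using hk
  rw [d.ps_eq (by omega), d.ps_eq hk']
  have h := List.pairwise_iff_getElem.1 d.pw_jobs k (k + 1) (by omega) hk' (by omega)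
  have h1 : k < d.jobs.length := by omega
  simpa [jb, List.getD_eq_getElem?_getD, hk', h1] using h

theorem travel_eq {i j : ℕ} (hi : i < d.jobs.length) (hj : j < d.jobs.length) :
    travel d.ins i j = ((d.x (d.jb i) : ℤ) - d.x (d.jb j)).natAbs := by
  have h := travel_mk (d.jobs.map d.vd) d.K d.sorted i j (by simpa using hi) (by simpa using hj)
  rw [d.ps_eq hi, d.ps_eq hj] at h
  change (travel d.ins i j : ℤ) = _ at h
  rw [Int.abs_eq_natAbs] at h
  exact_mod_cast h

theorem rel_eq {i : ℕ} (hi : i < d.jobs.length) : rel d.ins i = d.K - d.D (d.jb i) := by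
  have : rel d.ins i = ((d.jobs.map d.vd).getD i (0, 0, 0)).2.1 := by
    simp [rel, ins, VS.mk, List.getD_eq_getElem?_getD, hi]
  rw [this, d.getD_map hi]
  rfl

theorem hdl_eq {i : ℕ} (hi : i < d.jobs.length) : hdl d.ins i = d.h (d.jb i) := by
  have : hdl d.ins i = ((d.jobs.map d.vd).getD i (0, 0, 0)).2.2 := by
    simp [hdl, ins, VS.mk, List.getD_eq_getElem?_getD, hi]
  rw [this, d.getD_map hi]
  rfl

theorem jobs_pos : 0 < d.jobs.length := by simp [jobs]

theorem jb_zero : d.jb 0 = G 0 := by
  simp [jb, jobs, List.getD_eq_getElem?_getD, List.range_succ_eq_map]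

theorem rem_eq (l : List ℕ) (hl : ∀ i ∈ l, i < d.jobs.length) (v : ℕ) (hv : v < d.jobs.length) :
    rem d.ins v l = ((d.x (d.jb v) : ℤ) - d.ps (l.map d.jb)).natAbs + d.wk (l.map d.jb) +
      d.hs (l.map d.jb) := by
  induction l generalizing v with
  | nil =>
    change travel d.ins v 0 = _
    rw [d.travel_eq hv d.jobs_pos, d.jb_zero]
    have h1 : d.x (G 0) = 0 := rfl
    simp [h1, ps_nil, wk_nil]
  | cons j l ih =>
    have hj := hl j (List.mem_cons_self ..)
    rw [rem, ih (fun i hi => hl i (List.mem_cons_of_mem _ hi)) j hj, d.travel_eq hv hj,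
      d.hdl_eq hj, List.map_cons, ps_cons, wk_cons, hs_cons]
    ring

theorem good_iff (l : List ℕ) (hl : ∀ i ∈ l, i < d.jobs.length) :
    VS.good d.ins d.K l ↔ d.good (l.map d.jb) := by
  induction l with
  | nil => simp [VS.good, Dat.good]
  | cons j l ih =>
    have hj := hl j (List.mem_cons_self ..)
    have hl' := fun i hi => hl i (List.mem_cons_of_mem _ hi)
    rw [List.map_cons]
    unfold VS.good Dat.good
    rw [ih hl', d.rem_eq l hl' j hj, d.rel_eq hj, d.hdl_eq hj, wk_cons, hs_cons]
    have : d.K - d.D (d.jb j) + d.h (d.jb j) +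
        (((d.x (d.jb j) : ℤ) - d.ps (l.map d.jb)).natAbs + d.wk (l.map d.jb) +
          d.hs (l.map d.jb)) = d.K - d.D (d.jb j) +
        (((d.x (d.jb j) : ℤ) - d.ps (l.map d.jb)).natAbs + d.wk (l.map d.jb)) +
          (d.h (d.jb j) + d.hs (l.map d.jb)) := by ring
    rw [this]

theorem finish_iff (l : List ℕ) (hl : ∀ i ∈ l, i < d.jobs.length) :
    finish d.ins 0 0 l ≤ d.K ↔ d.good (l.map d.jb) ∧ d.cw (l.map d.jb) + d.hs (l.map d.jb) ≤ d.K := by
  rw [finish_le_iff, d.good_iff l hl, d.rem_eq l hl 0 d.jobs_pos, d.jb_zero]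
  have h1 : d.x (G 0) = 0 := rfl
  unfold cw
  rw [h1]
  constructor
  · rintro ⟨h2, h3⟩
    exact ⟨h3, by omega⟩
  · rintro ⟨h2, h3⟩
    exact ⟨by omega, h2⟩

theorem map_range : (List.range d.jobs.length).map d.jb = d.jobs := by
  apply List.ext_getElem
  · simp
  · intro i h1 h2
    simp [jb, List.getD_eq_getElem?_getD, h2]

theorem exists_lift {α β : Type} (f : α → β) (l : List α) (L : List β) (h : L.Perm (l.map f)) :
    ∃ l' : List α, l'.Perm l ∧ l'.map f = L := by
  have h1 : List.Forall₂ (fun b a => f a = b) (l.map f) l := by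
    rw [List.forall₂_map_left_iff]
    exact List.forall₂_same.2 (fun _ _ => rfl)
  obtain ⟨l', h2, h3⟩ := List.perm_comp_forall₂ h h1
  refine ⟨l', h3, ?_⟩
  clear h1 h h3
  induction h2 with
  | nil => rfl
  | cons h _ ih => rw [List.map_cons, h, ih]

theorem ins_length : d.ins.1.length = d.jobs.length := by simp [ins, VS.mk]

theorem ins_valid (ha : ∀ k < d.n, 0 < d.a k) : Valid d.ins := by
  refine mk_valid _ _ ?_ ?_
  · simp [jobs]
  · intro q hq
    rw [List.mem_map] at hq
    obtain ⟨j, hj, rfl⟩ := hq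
    have hV := d.V_pos
    change 0 < d.h j
    rcases j with k | k | k | _
    · simp only [h]; positivity
    · simp only [h]; positivity
    · refine ha k ?_
      simpa [jobs] using hj
    · simp [h]

theorem sched_iff (ha : ∀ k < d.n, 0 < d.a k) (ht : d.t ≤ d.S) :
    Sched d.ins ↔ ∃ s ⊆ Finset.range d.n, ∑ i ∈ s, d.a i = d.t := by
  constructor
  · rintro ⟨-, π, h1, h2⟩
    rw [d.ins_length] at h1
    have hl : ∀ i ∈ π, i < d.jobs.length := fun i hi => List.mem_range.1 (h1.mem_iff.1 hi)
    obtain ⟨h3, h4⟩ := (d.finish_iff π hl).1 h2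
    refine d.sound ht (π.map d.jb) ?_ h3 h4
    have := h1.map d.jb
    rwa [d.map_range] at this
  · rintro ⟨s, h1, h2⟩
    obtain ⟨L, h3, h4, h5⟩ := d.complete s h1 h2
    refine ⟨d.ins_valid ha, ?_⟩
    rw [← d.map_range] at h3
    obtain ⟨π, h6, rfl⟩ := exists_lift _ _ _ h3
    have hl : ∀ i ∈ π, i < d.jobs.length := fun i hi => List.mem_range.1 (h6.mem_iff.1 hi)
    refine ⟨π, ?_, (d.finish_iff π hl).2 ⟨h4, h5⟩⟩
    rw [d.ins_length]
    exact h6

end Dat

/-! ### The reduction -/

/-- the data given by an instance of subset sum -/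
def dat (y : List ℕ × ℕ) : Dat := ⟨fun i => y.1.getD i 0, y.1.length, y.2⟩

theorem dat_S (y : List ℕ × ℕ) : (dat y).S = y.1.sum := by
  unfold Dat.S dat
  simp only
  obtain ⟨l, t⟩ := y
  simp only
  induction l with
  | nil => simp
  | cons a l ih =>
    rw [List.length_cons, Finset.sum_range_succ', List.sum_cons, ← ih]
    simp only [List.getD_cons_succ, List.getD_cons_zero]
    ring

theorem sublist_iff (l : List ℕ) : ∀ t : ℕ, (∃ s : List ℕ, s.Sublist l ∧ s.sum = t) ↔
    ∃ s ⊆ Finset.range l.length, ∑ i ∈ s, l.getD i 0 = t := by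
  induction l with
  | nil =>
    intro t
    constructor
    · rintro ⟨s, hs, rfl⟩
      rw [List.sublist_nil] at hs
      subst hs
      exact ⟨∅, by simp, by simp⟩
    · rintro ⟨s, hs, h⟩
      exact ⟨[], List.Sublist.refl _, by simpa using h⟩
  | cons b l ih =>
    intro t
    constructor
    · rintro ⟨s, hs, rfl⟩
      rw [List.sublist_cons_iff] at hs
      rcases hs with hs | ⟨r, rfl, hr⟩
      · obtain ⟨e, he, h⟩ := (ih _).1 ⟨s, hs, rfl⟩
        refine ⟨e.map ⟨Nat.succ, Nat.succ_injective⟩, ?_, ?_⟩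
        · intro i hi
          rw [Finset.mem_map] at hi
          obtain ⟨j, hj, rfl⟩ := hi
          have := Finset.mem_range.1 (he hj)
          simp only [Function.Embedding.coeFn_mk, List.length_cons, Finset.mem_range]
          omega
        · rw [Finset.sum_map, ← h]
          simp
      · obtain ⟨e, he, h⟩ := (ih _).1 ⟨r, hr, rfl⟩
        refine ⟨insert 0 (e.map ⟨Nat.succ, Nat.succ_injective⟩), ?_, ?_⟩
        · intro i hi
          rw [Finset.mem_insert, Finset.mem_map] at hi
          rcases hi with rfl | ⟨j, hj, rfl⟩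
          · simp
          · have := Finset.mem_range.1 (he hj)
            simp only [Function.Embedding.coeFn_mk, List.length_cons, Finset.mem_range]
            omega
        · rw [Finset.sum_insert (by simp), Finset.sum_map, List.sum_cons, ← h]
          simp
    · rintro ⟨e, he, rfl⟩
      set e' : Finset ℕ := (Finset.range l.length).filter (fun i => i + 1 ∈ e) with he'
      obtain ⟨r, hr, hrs⟩ := (ih _).2 ⟨e', Finset.filter_subset _ _, rfl⟩
      have key : ∑ i ∈ e.erase 0, (b :: l).getD i 0 = ∑ i ∈ e', l.getD i 0 := by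
        symm
        refine Finset.sum_bij (fun i _ => i + 1) ?_ ?_ ?_ ?_
        · intro i hi
          rw [he', Finset.mem_filter] at hi
          rw [Finset.mem_erase]
          exact ⟨by omega, hi.2⟩
        · intro i _ j _ hij
          omega
        · intro j hj
          rw [Finset.mem_erase] at hj
          obtain ⟨h1, h2⟩ := hj
          have h3 := Finset.mem_range.1 (he h2)
          rw [List.length_cons] at h3
          refine ⟨j - 1, ?_, by omega⟩
          rw [he', Finset.mem_filter, Finset.mem_range]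
          refine ⟨by omega, ?_⟩
          rwa [Nat.sub_add_cancel (by omega)]
        · intro i _
          simp
      by_cases h0 : 0 ∈ e
      · refine ⟨b :: r, hr.cons_cons b, ?_⟩
        rw [List.sum_cons, hrs, ← key, ← Finset.add_sum_erase e _ h0]
        simp
      · refine ⟨r, hr.cons b, ?_⟩
        rw [hrs, ← key, Finset.erase_eq_of_notMem h0]

theorem red_iff (y : List ℕ × ℕ) (hy : R671.SS.Nice y) :
    R671.SS.SubsetSum y ↔ Sched (dat y).ins := by
  rw [Dat.sched_iff, R671.SS.SubsetSum, sublist_iff]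
  · rfl
  · intro k hk
    have hk' : k < y.1.length := hk
    have : (dat y).a k = y.1[k] := by simp [dat, List.getD_eq_getElem?_getD, hk']
    rw [this]
    exact (hy.1 _ (List.getElem_mem hk')).1
  · rw [dat_S]
    exact hy.2.le

end Pool.Agent.Y605.VS
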