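import Pool.Agent.Y605.VS.Pos
import Pool.Agent.NPC.Dec

/-!
# Single-vehicle scheduling on a line is in NP
-/

set_option autoImplicit false

namespace Pool.Agent.Y605.VS

set_option maxHeartbeats 400000

open Pool.Agent.NPC

/-- travel times to the right, as a sum over all edges -/
def tr1 (L : List (ℕ × ℕ)) (i j : ℕ) : ℕ :=
  ((List.range L.length).map fun k =>
    bif decide (i ≤ k) && decide (k < j) then (L.getD k (0, 0)).1 else 0).sum

/-- travel times -/
def trv (I : Ins) (i j : ℕ) : ℕ := tr1 I.2.1 i j + tr1 (I.2.1.map Prod.swap) j i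

theorem tr1_eq (L : List (ℕ × ℕ)) (i j : ℕ) :
    tr1 L i j = ∑ k ∈ Finset.Ico i j, (L.getD k (0, 0)).1 := by
  have h1 : tr1 L i j =
      ∑ k ∈ Finset.range L.length, bif decide (i ≤ k) && decide (k < j) then
        (L.getD k (0, 0)).1 else 0 := rfl
  have h2 : ∀ k, (bif decide (i ≤ k) && decide (k < j) then (L.getD k (0, 0)).1 else 0) =
      if i ≤ k ∧ k < j then (L.getD k (0, 0)).1 else 0 := by
    intro k
    by_cases h : i ≤ k ∧ k < j <;> simp [h, cond_eq_ite]
  rw [h1, Finset.sum_congr rfl (fun k _ => h2 k), ← Finset.sum_filter]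
  apply Finset.sum_subset
  · intro k hk
    simp only [Finset.mem_filter, Finset.mem_range, Finset.mem_Ico] at hk ⊢
    exact hk.2
  · intro k hk hk'
    simp only [Finset.mem_filter, Finset.mem_range, Finset.mem_Ico] at hk hk'
    have : L.length ≤ k := by
      by_contra hlt
      exact hk' ⟨by omega, hk⟩
    simp [List.getD_eq_getElem?_getD, this]

theorem trv_eq (I : Ins) (i j : ℕ) : trv I i j = travel I i j := by
  unfold trv travel
  rw [tr1_eq, tr1_eq]
  congr 1
  refine Finset.sum_congr rfl fun k _ => ?_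
  simp only [List.getD_eq_getElem?_getD, List.getElem?_map]
  cases I.2.1[k]? <;> rfl

theorem tr1_poly : Poly (fun p : List (ℕ × ℕ) × ℕ × ℕ => tr1 p.1 p.2.1 p.2.2) := by
  unfold tr1
  have hlen : UPoly (fun p : List (ℕ × ℕ) × ℕ × ℕ => p.1.length) :=
    UPoly.length (Poly.fst Poly.id)
  have hk : Poly (fun q : (List (ℕ × ℕ) × ℕ × ℕ) × ℕ => q.2) := Poly.snd Poly.id
  have h1 : Poly (fun q : (List (ℕ × ℕ) × ℕ × ℕ) × ℕ => q.1.2.1) :=
    Poly.fst (Poly.snd (Poly.fst Poly.id))
  have h2 : Poly (fun q : (List (ℕ × ℕ) × ℕ × ℕ) × ℕ => q.1.2.2) :=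
    Poly.snd (Poly.snd (Poly.fst Poly.id))
  have h4 : Poly (fun q : (List (ℕ × ℕ) × ℕ × ℕ) × ℕ => q.1.1) :=
    Poly.fst (Poly.fst Poly.id)
  have h3 : Poly (fun q : (List (ℕ × ℕ) × ℕ × ℕ) × ℕ => q.1.1.getD q.2 (0, 0)) :=
    NPC.Poly.getD h4 hk (NPC.Poly.const _)
  refine NPC.Poly.sum ?_
  exact NPC.Poly.map (l := fun p : List (ℕ × ℕ) × ℕ × ℕ => List.range p.1.length)
        (F := fun p k => bif decide (p.2.1 ≤ k) && decide (k < p.2.2) then
          (p.1.getD k (0, 0)).1 else 0)
        hlen.range (NPC.Poly.cond (NPC.Poly.and (NPC.Poly.decide_le h1 hk)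
          (NPC.Poly.decide_lt hk h2)) (Poly.fst h3) (NPC.Poly.const 0))

section
attribute [local irreducible] tr1

theorem tr1_polyc {α : Type} [TEnc α] {L : α → List (ℕ × ℕ)} {i j : α → ℕ} (hL : Poly L)
    (hi : Poly i) (hj : Poly j) : Poly (fun a => tr1 (L a) (i a) (j a)) :=
  tr1_poly.comp (Poly.pair hL (Poly.pair hi hj))

theorem swap_poly {α : Type} [TEnc α] {L : α → List (ℕ × ℕ)} (hL : Poly L) :
    Poly (fun a => (L a).map Prod.swap) :=
  NPC.Poly.map (l := L) (F := fun _ e => Prod.swap e) hL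
    (Poly.pair (Poly.snd (Poly.snd Poly.id)) (Poly.fst (Poly.snd Poly.id)))

theorem trv_poly {α : Type} [TEnc α] {I : α → Ins} {i j : α → ℕ} (hI : Poly I) (hi : Poly i)
    (hj : Poly j) : Poly (fun a => trv (I a) (i a) (j a)) := by
  have hE : Poly (fun a => (I a).2.1) := Poly.fst (Poly.snd hI)
  unfold trv
  exact NPC.Poly.add (tr1_polyc hE hi hj) (tr1_polyc (swap_poly hE) hj hi)

end

/-- one step -/
def stp (I : Ins) (s : ℕ × ℕ) (j : ℕ) : ℕ × ℕ :=
  (j, max (s.2 + trv I s.1 j) (rel I j) + hdl I j)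

theorem finish_fold (I : Ins) (l : List ℕ) : ∀ s : ℕ × ℕ, finish I s.1 s.2 l =
    (l.foldl (stp I) s).2 + trv I (l.foldl (stp I) s).1 I.2.2.1 := by
  induction l with
  | nil => intro s; simp [finish, trv_eq]
  | cons j l ih =>
    intro s
    rw [List.foldl_cons, ← ih]
    simp only [finish, stp, trv_eq]

/-- a bound for all the numbers -/
def bd (I : Ins) : ℕ :=
  (I.1.map fun q => q.1 + q.2).sum + (I.2.1.map fun e => e.1 + e.2).sum

theorem le_sum_getD (L : List (ℕ × ℕ)) (k : ℕ) :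
    (L.getD k (0, 0)).1 + (L.getD k (0, 0)).2 ≤ (L.map fun q => q.1 + q.2).sum := by
  by_cases h : k < L.length
  · have h1 : L.getD k (0, 0) = L[k] := by simp [List.getD_eq_getElem?_getD, h]
    rw [h1]
    exact List.single_le_sum (by simp) _ (List.mem_map.2 ⟨L[k], List.getElem_mem h, rfl⟩)
  · have h1 : L.getD k (0, 0) = (0, 0) := by simp [List.getD_eq_getElem?_getD, not_lt.1 h]
    rw [h1]
    simp

theorem sum_range_getD (L : List (ℕ × ℕ)) (g : ℕ × ℕ → ℕ) :
    ((List.range L.length).map fun k => g (L.getD k (0, 0))).sum = (L.map g).sum := by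
  congr 1
  apply List.ext_getElem
  · simp
  · intro i h1 h2
    simp at h1
    simp [List.getD_eq_getElem?_getD, h1]

theorem tr1_le (L : List (ℕ × ℕ)) (i j : ℕ) : tr1 L i j ≤ (L.map fun e => e.1 + e.2).sum := by
  rw [← sum_range_getD L (fun e => e.1 + e.2)]
  unfold tr1
  apply List.sum_le_sum
  intro k _
  cases (decide (i ≤ k) && decide (k < j))
  · exact Nat.zero_le _
  · exact Nat.le_add_right _ _

theorem trv_le (I : Ins) (i j : ℕ) : trv I i j ≤ 2 * bd I := by
  have h1 := tr1_le I.2.1 i j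
  have h2 := tr1_le (I.2.1.map Prod.swap) j i
  have h3 : ((I.2.1.map Prod.swap).map fun e => e.1 + e.2) = I.2.1.map fun e => e.1 + e.2 := by
    rw [List.map_map]
    apply List.map_congr_left
    intro e _
    simp [add_comm]
  rw [h3] at h2
  unfold trv bd
  omega

theorem stp_bound (I : Ins) (l : List ℕ) : ∀ s : ℕ × ℕ,
    (l.foldl (stp I) s).2 ≤ s.2 + l.length * (4 * bd I) ∧
      (l.foldl (stp I) s).1 ≤ s.1 + l.sum := by
  induction l with
  | nil => intro s; simp
  | cons j l ih =>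
    intro s
    obtain ⟨h1, h2⟩ := ih (stp I s j)
    have h3 := trv_le I s.1 j
    have h4 : rel I j + hdl I j ≤ bd I := by
      have := le_sum_getD I.1 j
      unfold rel hdl bd
      omega
    have h5 : (stp I s j).2 ≤ s.2 + 4 * bd I := by
      simp only [stp]
      omega
    have h6 : (stp I s j).1 = j := rfl
    rw [List.foldl_cons, List.length_cons, List.sum_cons]
    have h7 : (l.length + 1) * (4 * bd I) = l.length * (4 * bd I) + 4 * bd I := by ring
    omega

theorem sum_take_le (l : List ℕ) (k : ℕ) : (l.take k).sum ≤ l.sum :=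
  (List.take_sublist k l).sum_le_sum (fun _ _ => Nat.zero_le _)

theorem bd1_poly : Poly (fun L : List (ℕ × ℕ) => (L.map fun q => q.1 + q.2).sum) :=
  NPC.Poly.sum (NPC.Poly.map (l := fun L : List (ℕ × ℕ) => L) (F := fun _ q => q.1 + q.2)
    Poly.id (NPC.Poly.add (Poly.fst (Poly.snd Poly.id)) (Poly.snd (Poly.snd Poly.id))))

theorem bd_poly : Poly bd := by
  have h1 : Poly (fun I : Ins => (I.1.map fun q => q.1 + q.2).sum) :=
    bd1_poly.comp (Poly.fst Poly.id)
  have h2 : Poly (fun I : Ins => (I.2.1.map fun q => q.1 + q.2).sum) :=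
    bd1_poly.comp (Poly.fst (Poly.snd Poly.id))
  exact NPC.Poly.add h1 h2


theorem rel_poly {α : Type} [TEnc α] {I : α → Ins} {i : α → ℕ} (hI : Poly I) (hi : Poly i) :
    Poly (fun a => rel (I a) (i a)) := by
  unfold rel
  exact Poly.fst (Poly.getD (Poly.fst hI) hi (NPC.Poly.const _))

theorem hdl_poly {α : Type} [TEnc α] {I : α → Ins} {i : α → ℕ} (hI : Poly I) (hi : Poly i) :
    Poly (fun a => hdl (I a) (i a)) := by
  unfold hdl
  exact Poly.snd (Poly.getD (Poly.fst hI) hi (NPC.Poly.const _))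

theorem stp_poly {α : Type} [TEnc α] {I : α → Ins} {s : α → ℕ × ℕ} {j : α → ℕ} (hI : Poly I)
    (hs : Poly s) (hj : Poly j) : Poly (fun a => stp (I a) (s a) (j a)) := by
  unfold stp
  exact Poly.pair hj (Poly.add (Poly.max (Poly.add (Poly.snd hs) (trv_poly hI (Poly.fst hs) hj))
    (rel_poly hI hj)) (hdl_poly hI hj))

/-- the fold is computable in polynomial time -/
theorem fold_poly : Poly (fun a : Ins × List ℕ => a.2.foldl (stp a.1) (a.1.2.2.1, 0)) := by
  have hst : Poly (fun a : Ins × List ℕ => a.1.2.2.1) :=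
    Poly.fst (Poly.snd (Poly.snd (Poly.fst Poly.id)))
  have h2 : Poly (fun a : Ins × List ℕ => a.2) := Poly.snd Poly.id
  have hg : Poly (fun a : Ins × List ℕ =>
      (a.1.2.2.1 + a.2.sum, a.2.length * (4 * bd a.1))) :=
    Poly.pair (Poly.add hst (Poly.sum h2)) (Poly.mul (Poly.length h2)
      (Poly.mul (NPC.Poly.const 4) (bd_poly.comp (Poly.fst Poly.id))))
  obtain ⟨r, hr⟩ := hg.sz_le
  refine NPC.Poly.foldl (l := fun a : Ins × List ℕ => a.2)
    (s := fun a : Ins × List ℕ => (a.1.2.2.1, (0 : ℕ))) (F := fun a s j => stp a.1 s j)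
    h2 (Poly.pair hst (NPC.Poly.const 0)) ?_ (2 * r) ?_
  · exact stp_poly (Poly.fst (Poly.fst Poly.id)) (Poly.fst (Poly.snd Poly.id))
      (Poly.snd (Poly.snd Poly.id))
  · intro a k hk
    obtain ⟨h1, h2⟩ := stp_bound a.1 (a.2.take k) (a.1.2.2.1, 0)
    set s := (a.2.take k).foldl (stp a.1) (a.1.2.2.1, 0) with hs
    have h3 : s.1 ≤ a.1.2.2.1 + a.2.sum := by
      have h4 := sum_take_le a.2 k
      change s.1 ≤ a.1.2.2.1 + (a.2.take k).sum at h2
      omega
    have h4 : s.2 ≤ a.2.length * (4 * bd a.1) := by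
      change s.2 ≤ 0 + (a.2.take k).length * (4 * bd a.1) at h1
      have h5 : (a.2.take k).length * (4 * bd a.1) ≤ a.2.length * (4 * bd a.1) :=
        Nat.mul_le_mul_right _ (by rw [List.length_take]; omega)
      omega
    have h5 := hr a
    have h6 := sz_nat_mono_le h3
    have h7 := sz_nat_mono_le h4
    rw [sz_pair] at h5
    have e3 : (2 * r : Polynomial ℕ).eval (sz a) = 2 * r.eval (sz a) := by
      simp
    have e4 : sz s = sz s.1 + sz s.2 + 1 := sz_pair s.1 s.2
    rw [e3, e4]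
    omega

/-- the verifier -/
def ver (a : Ins × List ℕ) : Bool :=
  decide (a.1.1.length = a.1.2.1.length + 1) && decide (a.1.2.2.1 < a.1.1.length) &&
  (a.1.1.all fun q => decide (0 < q.2)) &&
  decide (a.2.length = a.1.1.length) &&
  ((List.range a.1.1.length).all fun i => decide (i ∈ a.2)) &&
  decide ((a.2.foldl (stp a.1) (a.1.2.2.1, 0)).2 +
    trv a.1 (a.2.foldl (stp a.1) (a.1.2.2.1, 0)).1 a.1.2.2.1 ≤ a.1.2.2.2)

theorem ver_poly : Poly ver := by
  have hI : Poly (fun a : Ins × List ℕ => a.1) := Poly.fst Poly.id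
  have hJ : Poly (fun a : Ins × List ℕ => a.1.1) := Poly.fst hI
  have hE : Poly (fun a : Ins × List ℕ => a.1.2.1) := Poly.fst (Poly.snd hI)
  have hst : Poly (fun a : Ins × List ℕ => a.1.2.2.1) := Poly.fst (Poly.snd (Poly.snd hI))
  have hK : Poly (fun a : Ins × List ℕ => a.1.2.2.2) := Poly.snd (Poly.snd (Poly.snd hI))
  have h2 : Poly (fun a : Ins × List ℕ => a.2) := Poly.snd Poly.id
  unfold ver
  refine Poly.and (Poly.and (Poly.and (Poly.and (Poly.and ?_ ?_) ?_) ?_) ?_) ?_
  · exact Poly.dec_eq (Poly.length hJ) (Poly.add (Poly.length hE) (NPC.Poly.const 1))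
  · exact Poly.decide_lt hst (Poly.length hJ)
  · exact NPC.Poly.all (p := fun (_ : Ins × List ℕ) (q : ℕ × ℕ) => decide (0 < q.2)) hJ
      (Poly.decide_lt (NPC.Poly.const 0) (Poly.snd (Poly.snd Poly.id)))
  · exact Poly.dec_eq (Poly.length h2) (Poly.length hJ)
  · exact NPC.Poly.all (p := fun (a : Ins × List ℕ) (i : ℕ) => decide (i ∈ a.2))
      (UPoly.length hJ).range
      (Poly.dec_mem (Poly.snd Poly.id) (Poly.snd (Poly.fst Poly.id)))
  · exact Poly.decide_le (Poly.add (Poly.snd fold_poly)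
      (trv_poly hI (Poly.fst fold_poly) hst)) hK

theorem ver_iff (I : Ins) (π : List ℕ) : ver (I, π) = true ↔ Valid I ∧
    π.Perm (List.range I.1.length) ∧ finish I I.2.2.1 0 π ≤ I.2.2.2 := by
  have h1 : (∀ x ∈ I.1, 0 < x.2) ↔ ∀ i < I.1.length, 0 < hdl I i := by
    constructor
    · intro h i hi
      have : hdl I i = I.1[i].2 := by simp [hdl, List.getD_eq_getElem?_getD, hi]
      rw [this]
      exact h _ (List.getElem_mem hi)
    · intro h x hx
      obtain ⟨i, hi, rfl⟩ := List.getElem_of_mem hx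
      have : hdl I i = I.1[i].2 := by simp [hdl, List.getD_eq_getElem?_getD, hi]
      rw [← this]
      exact h i hi
  have h2 : (π.length = I.1.length ∧ ∀ i < I.1.length, i ∈ π) ↔
      π.Perm (List.range I.1.length) := by
    constructor
    · rintro ⟨h3, h4⟩
      have h5 : (List.range I.1.length) ⊆ π := fun i hi => h4 i (List.mem_range.1 hi)
      exact ((List.subperm_of_subset List.nodup_range h5).perm_of_length_le (by simp [h3])).symm
    · intro h
      exact ⟨by rw [h.length_eq, List.length_range],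
        fun i hi => h.mem_iff.2 (List.mem_range.2 hi)⟩
  have h3 := finish_fold I π (I.2.2.1, 0)
  simp only at h3
  unfold ver Valid
  simp only [Bool.and_eq_true, decide_eq_true_eq, List.all_eq_true, List.mem_range]
  rw [h3, ← h1, ← h2]
  tauto

theorem inNP_sched : InNPP Sched := by
  have hg : Poly (fun I : Ins => List.range I.1.length) := (UPoly.length (Poly.fst Poly.id)).range
  obtain ⟨r, hr⟩ := hg.sz_le
  refine inNPP_of ver_poly r (fun I => ?_)
  constructor
  · rintro ⟨h1, π, h2, h3⟩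
    refine ⟨π, ?_, (ver_iff I π).2 ⟨h1, h2, h3⟩⟩
    have h4 : sz π = sz (List.range I.1.length) := by
      have key : ∀ {l l' : List ℕ}, l.Perm l' → sz l = sz l' := by
        intro l l' h
        induction h with
        | nil => rfl
        | cons x _ ih => simp [ih]
        | swap x y l => simp; omega
        | trans _ _ ih1 ih2 => rw [ih1, ih2]
      exact key h2
    rw [h4]
    exact hr I
  · rintro ⟨π, -, h⟩
    obtain ⟨h1, h2, h3⟩ := (ver_iff I π).1 h
    exact ⟨h1, π, h2, h3⟩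

end Pool.Agent.Y605.VS
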