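import Pool.Agent.Y605.VS.Fin

/-!
# Single-vehicle scheduling on a line is NP-hard: positive travel times
-/

set_option autoImplicit false

namespace Pool.Agent.Y605.VS

open Pool.Agent.NPC

/-- scaling factor -/
def sc (I : Ins) : ℕ := (I.1.length + 1) * (I.1.length + 1) + 1

/-- scale all numbers, and add `1` to all travel times -/
def pert (I : Ins) : Ins :=
  (I.1.map (fun q => (sc I * q.1, sc I * q.2)),
    I.2.1.map (fun e => (sc I * e.1 + 1, sc I * e.2 + 1)), I.2.2.1,
    sc I * I.2.2.2 + (I.1.length + 1) * (I.1.length + 1))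

variable (I : Ins)

theorem rel_pert (i : ℕ) : rel (pert I) i = sc I * rel I i := by
  unfold rel pert
  simp only [List.getD_eq_getElem?_getD, List.getElem?_map]
  cases I.1[i]? <;> simp

theorem hdl_pert (i : ℕ) : hdl (pert I) i = sc I * hdl I i := by
  unfold hdl pert
  simp only [List.getD_eq_getElem?_getD, List.getElem?_map]
  cases I.1[i]? <;> simp

theorem sum_pert (g : ℕ × ℕ → ℕ) (g' : ℕ × ℕ → ℕ) (i j : ℕ) (hj : j ≤ I.2.1.length)
    (hg : ∀ e, g' (sc I * e.1 + 1, sc I * e.2 + 1) = sc I * g e + 1) :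
    ∑ k ∈ Finset.Ico i j, g' ((pert I).2.1.getD k (0, 0)) =
      sc I * ∑ k ∈ Finset.Ico i j, g (I.2.1.getD k (0, 0)) + (j - i) := by
  have h1 : ∀ k ∈ Finset.Ico i j, g' ((pert I).2.1.getD k (0, 0)) =
      sc I * g (I.2.1.getD k (0, 0)) + 1 := by
    intro k hk
    rw [Finset.mem_Ico] at hk
    have hk' : k < I.2.1.length := by omega
    rw [← hg]
    congr 1
    simp [pert, List.getD_eq_getElem?_getD, hk']
  rw [Finset.sum_congr rfl h1, Finset.sum_add_distrib, ← Finset.mul_sum]
  simp

theorem travel_pert (i j : ℕ) (hi : i ≤ I.2.1.length) (hj : j ≤ I.2.1.length) :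
    sc I * travel I i j ≤ travel (pert I) i j ∧
      travel (pert I) i j ≤ sc I * travel I i j + I.2.1.length := by
  unfold travel
  rw [sum_pert I Prod.fst Prod.fst i j hj (fun _ => rfl),
    sum_pert I Prod.snd Prod.snd j i hi (fun _ => rfl), Nat.mul_add]
  omega

theorem finish_pert (hI : Valid I) (l : List ℕ) (hl : ∀ i ∈ l, i < I.1.length) :
    ∀ (v t t' c : ℕ), v < I.1.length → sc I * t ≤ t' → t' ≤ sc I * t + c →
      sc I * finish I v t l ≤ finish (pert I) v t' l ∧
        finish (pert I) v t' l ≤ sc I * finish I v t l + (c + (l.length + 1) * I.2.1.length) := by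
  induction l with
  | nil =>
    intro v t t' c hv h1 h2
    have hlen := hI.1
    have hs := hI.2.1
    obtain ⟨h3, h4⟩ := travel_pert I v I.2.2.1 (by omega) (by omega)
    simp only [finish, List.length_nil]
    change sc I * (t + travel I v I.2.2.1) ≤ t' + travel (pert I) v I.2.2.1 ∧
      t' + travel (pert I) v I.2.2.1 ≤ sc I * (t + travel I v I.2.2.1) + _
    rw [Nat.mul_add]
    omega
  | cons j l ih =>
    intro v t t' c hv h1 h2
    have hlen := hI.1
    have hj := hl j (List.mem_cons_self ..)
    obtain ⟨h3, h4⟩ := travel_pert I v j (by omega) (by omega)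
    simp only [finish]
    rw [rel_pert, hdl_pert]
    have e1 : sc I * (max (t + travel I v j) (rel I j) + hdl I j) =
        max (sc I * t + sc I * travel I v j) (sc I * rel I j) + sc I * hdl I j := by
      rw [Nat.mul_add, ← Nat.mul_max_mul_left, Nat.mul_add]
    obtain ⟨h5, h6⟩ := ih (fun i hi => hl i (List.mem_cons_of_mem _ hi)) j
      (max (t + travel I v j) (rel I j) + hdl I j)
      (max (t' + travel (pert I) v j) (sc I * rel I j) + sc I * hdl I j) (c + I.2.1.length) hj
      (by rw [e1]; omega) (by rw [e1]; omega)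
    refine ⟨h5, h6.trans ?_⟩
    rw [List.length_cons]
    have : (l.length + 1 + 1) * I.2.1.length = (l.length + 1) * I.2.1.length + I.2.1.length := by
      ring
    omega

theorem sched_pert (hI : Valid I) : Sched I ↔ Sched (pert I) := by
  have hlen : (pert I).1.length = I.1.length := by simp [pert]
  have hV : Valid (pert I) := by
    refine ⟨?_, ?_, ?_⟩
    · simp only [pert, List.length_map]
      exact hI.1
    · rw [hlen]; exact hI.2.1
    · intro i hi
      rw [hlen] at hi
      rw [hdl_pert]
      exact Nat.mul_pos (by unfold sc; omega) (hI.2.2 i hi)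
  have h0 := hI.1
  have key : ∀ π : List ℕ, π.Perm (List.range I.1.length) →
      (finish I I.2.2.1 0 π ≤ I.2.2.2 ↔
        finish (pert I) (pert I).2.2.1 0 π ≤ (pert I).2.2.2) := by
    intro π hπ
    have hl : ∀ i ∈ π, i < I.1.length := fun i hi => List.mem_range.1 (hπ.mem_iff.1 hi)
    obtain ⟨h1, h2⟩ := finish_pert I hI π hl I.2.2.1 0 0 0 hI.2.1 (by simp) (by simp)
    have hπl : π.length = I.1.length := by rw [hπ.length_eq, List.length_range]
    have h3 : (π.length + 1) * I.2.1.length ≤ (I.1.length + 1) * (I.1.length + 1) := by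
      rw [hπl]
      exact Nat.mul_le_mul_left _ (by omega)
    change _ ↔ finish (pert I) I.2.2.1 0 π ≤ sc I * I.2.2.2 + (I.1.length + 1) * (I.1.length + 1)
    constructor
    · intro h
      have := Nat.mul_le_mul_left (sc I) h
      omega
    · intro h
      have h4 : sc I * finish I I.2.2.1 0 π < sc I * (I.2.2.2 + 1) := by
        rw [Nat.mul_add, Nat.mul_one]
        have : sc I = (I.1.length + 1) * (I.1.length + 1) + 1 := rfl
        omega
      exact Nat.lt_succ_iff.1 (lt_of_mul_lt_mul_left h4 (Nat.zero_le _))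
  unfold Sched
  rw [hlen]
  constructor
  · rintro ⟨-, π, h1, h2⟩
    exact ⟨hV, π, h1, (key π h1).1 h2⟩
  · rintro ⟨-, π, h1, h2⟩
    exact ⟨hI, π, h1, (key π h1).2 h2⟩

theorem sc_poly : Poly sc := by
  unfold sc
  fun_prop

attribute [local fun_prop] sc_poly
attribute [local irreducible] sc

theorem pert_poly : Poly pert := by
  unfold pert
  fun_prop

/-- Restricted instances: the start vertex is an end of the path, and the travel times are
symmetric and positive. -/
def Nice (I : Ins) : Prop := I.2.2.1 = 0 ∧ ∀ e ∈ I.2.1, e.1 = e.2 ∧ 0 < e.1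

theorem hardPr_nice : HardPr (fun I : Ins => Nice I) Sched := by
  refine hardPr.trans pert_poly ?_ (fun I hI => sched_pert I hI.1)
  rintro I ⟨-, h1, h2⟩
  refine ⟨h1, ?_⟩
  intro e he
  simp only [pert, List.mem_map] at he
  obtain ⟨e', he', rfl⟩ := he
  simp [h2 e' he']

theorem npHard_nice : NPHardP (fun I : Ins => Nice I ∧ Sched I) := by
  refine HardI.toNPHardP ?_
  intro L hL
  obtain ⟨f, h1, h2, h3⟩ := hardPr_nice L hL
  exact ⟨f, h1, fun x => (h3 x).trans ⟨fun h => ⟨h2 x, h⟩, fun h => h.2⟩⟩

end Pool.Agent.Y605.VS
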